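import Pool.Agent.H72.HR.Targets

/-!
Module PIG of the board hrk_modules: pigeonhole principle for complex linear forms.
-/

open Finset

namespace Pool.Agent.H46.HR

open Pool.Agent.H72.HR

section

attribute [local instance] Matrix.seminormedAddCommGroup

theorem abs_floor_le (x B : ℝ) (hB : 1 ≤ B) (hx : |x| ≤ B) : |((⌊x⌋ : ℤ) : ℝ)| ≤ 2 * B := by
  rw [abs_le] at hx ⊢
  have h1 := Int.floor_le x
  have h2 := Int.lt_floor_add_one x
  constructor
  · linarith [hx.1]
  · linarith [hx.2]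

theorem form_small {U : Type} [Fintype U] (x : U → ℝ) (t : U → ℤ) (Z : ℝ)
    (ht : ∀ u, |(t u : ℝ)| ≤ Z) (h0 : ∑ u, ⌊x u⌋ * t u = 0) :
    |∑ u, x u * (t u : ℝ)| ≤ Fintype.card U * Z := by
  have h1 : ∑ u, x u * (t u : ℝ) = ∑ u, (x u - ⌊x u⌋) * (t u : ℝ) := by
    have h2 : ∑ u, ((⌊x u⌋ : ℤ) : ℝ) * (t u : ℝ) = 0 := by exact_mod_cast h0
    calc ∑ u, x u * (t u : ℝ) = ∑ u, x u * (t u : ℝ) - ∑ u, ((⌊x u⌋ : ℤ) : ℝ) * (t u : ℝ) := by
          rw [h2, sub_zero]
      _ = _ := by
          rw [← Finset.sum_sub_distrib]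
          exact Finset.sum_congr rfl fun u _ => by ring
  rw [h1]
  refine (Finset.abs_sum_le_sum_abs _ _).trans ?_
  calc ∑ u, |(x u - ⌊x u⌋) * (t u : ℝ)| ≤ ∑ _u : U, Z := by
        refine Finset.sum_le_sum fun u _ => ?_
        rw [abs_mul]
        have h2 : |x u - ⌊x u⌋| ≤ 1 := by
          rw [abs_le]
          have h3 := Int.floor_le (x u)
          have h4 := Int.lt_floor_add_one (x u)
          constructor <;> linarith
        calc |x u - ⌊x u⌋| * |(t u : ℝ)| ≤ 1 * |(t u : ℝ)| := by gcongr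
          _ ≤ Z := by rw [one_mul]; exact ht u
    _ = _ := by simp

theorem pig_target : T_PIG := by
  intro U V _ _ a Y X K hY hX hK hV ha hUV
  classical
  set A : Matrix (V ⊕ V) U ℤ := Matrix.of (fun v u => Sum.elim (fun v => ⌊X * (a v u).re⌋)
    (fun v => ⌊X * (a v u).im⌋) v) with hA
  have hXY : (1 : ℝ) ≤ X * Y := by nlinarith
  have hcard : Fintype.card (V ⊕ V) = 2 * Fintype.card V := by
    rw [Fintype.card_sum]; ring
  have hlt : Fintype.card (V ⊕ V) < Fintype.card U := by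
    rw [hcard]
    have : 2 * (1 + 1) * Fintype.card V ≤ 2 * (K + 1) * Fintype.card V := by gcongr
    omega
  obtain ⟨t, ht0, ht, htn⟩ := Int.Matrix.exists_ne_zero_int_vec_norm_le A hlt (by omega)
  have hAn : ‖A‖ ≤ 2 * (X * Y) := by
    rw [Matrix.norm_le_iff (by linarith)]
    intro v u
    rw [Int.norm_eq_abs]
    rcases v with v | v
    · refine abs_floor_le _ _ hXY ?_
      rw [abs_mul, abs_of_nonneg (by linarith : (0 : ℝ) ≤ X)]
      gcongr
      exact (Complex.abs_re_le_norm _).trans (ha v u)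
    · refine abs_floor_le _ _ hXY ?_
      rw [abs_mul, abs_of_nonneg (by linarith : (0 : ℝ) ≤ X)]
      gcongr
      exact (Complex.abs_im_le_norm _).trans (ha v u)
  have hmax : max 1 ‖A‖ ≤ 2 * (X * Y) := max_le (by linarith) hAn
  have hU1 : (1 : ℝ) ≤ Fintype.card U := by exact_mod_cast (by omega : 1 ≤ Fintype.card U)
  have hmax1 : (1 : ℝ) ≤ max 1 ‖A‖ := le_max_left 1 ‖A‖
  have hbase : (1 : ℝ) ≤ Fintype.card U * max 1 ‖A‖ := by nlinarith
  have hK' : (0 : ℝ) < K := by exact_mod_cast hK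
  have hexp : ((Fintype.card (V ⊕ V) : ℝ) / ((Fintype.card U : ℝ) - Fintype.card (V ⊕ V))) ≤
      1 / K := by
    have h3 : (2 : ℝ) * (K + 1) * Fintype.card V ≤ Fintype.card U := by exact_mod_cast hUV
    have h4 : (0 : ℝ) < Fintype.card V := by exact_mod_cast hV
    have h5 : (Fintype.card (V ⊕ V) : ℝ) = 2 * Fintype.card V := by exact_mod_cast hcard
    rw [h5]
    have h6 : 0 < (Fintype.card U : ℝ) - 2 * Fintype.card V := by nlinarith
    rw [div_le_div_iff₀ h6 hK']
    nlinarith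
  set Z : ℝ := (Fintype.card U * max 1 ‖A‖) ^ ((1 : ℝ) / K) with hZ
  have hZ1 : 1 ≤ Z := Real.one_le_rpow hbase (by positivity)
  have htZ : ∀ u, |((t u : ℤ) : ℝ)| ≤ Z := by
    intro u
    have h5 : |((t u : ℤ) : ℝ)| ≤ ‖t‖ := by
      rw [← Int.norm_eq_abs]
      exact norm_le_pi_norm t u
    refine h5.trans (htn.trans ?_)
    exact Real.rpow_le_rpow_of_exponent_le hbase hexp
  refine ⟨t, Z, ht0, hZ1, htZ, ?_, fun v => ?_⟩
  · have h7 : Z ^ K = Fintype.card U * max 1 ‖A‖ := by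
      rw [hZ, ← Real.rpow_natCast, ← Real.rpow_mul (by linarith)]
      rw [one_div, inv_mul_cancel₀ hK'.ne', Real.rpow_one]
    rw [h7]
    calc (Fintype.card U : ℝ) * max 1 ‖A‖ ≤ Fintype.card U * (2 * (X * Y)) := by gcongr
      _ ≤ 4 * Fintype.card U * (X * Y) := by nlinarith
  · have hre : |∑ u, (X * (a v u).re) * (t u : ℝ)| ≤ Fintype.card U * Z := by
      refine form_small _ t Z htZ ?_
      have := congrFun ht (Sum.inl v)
      simpa [Matrix.mulVec, dotProduct, hA] using this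
    have him : |∑ u, (X * (a v u).im) * (t u : ℝ)| ≤ Fintype.card U * Z := by
      refine form_small _ t Z htZ ?_
      have := congrFun ht (Sum.inr v)
      simpa [Matrix.mulVec, dotProduct, hA] using this
    have e1 : (∑ u, a v u * (t u : ℂ)).re = ∑ u, (a v u).re * (t u : ℝ) := by
      rw [Complex.re_sum]
      refine Finset.sum_congr rfl fun u _ => ?_
      rw [Complex.mul_re]
      simp
    have e2 : (∑ u, a v u * (t u : ℂ)).im = ∑ u, (a v u).im * (t u : ℝ) := by
      rw [Complex.im_sum]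
      refine Finset.sum_congr rfl fun u _ => ?_
      rw [Complex.mul_im]
      simp
    have hn := Complex.norm_le_abs_re_add_abs_im (∑ u, a v u * (t u : ℂ))
    have hX0 : (0 : ℝ) ≤ X := by linarith
    have f1 : X * |(∑ u, a v u * (t u : ℂ)).re| ≤ Fintype.card U * Z := by
      rw [e1]
      calc X * |∑ u, (a v u).re * (t u : ℝ)| = |∑ u, (X * (a v u).re) * (t u : ℝ)| := by
            rw [← abs_of_nonneg hX0, ← abs_mul, Finset.mul_sum, abs_of_nonneg hX0]
            congr 1
            exact Finset.sum_congr rfl fun u _ => by ring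
        _ ≤ _ := hre
    have f2 : X * |(∑ u, a v u * (t u : ℂ)).im| ≤ Fintype.card U * Z := by
      rw [e2]
      calc X * |∑ u, (a v u).im * (t u : ℝ)| = |∑ u, (X * (a v u).im) * (t u : ℝ)| := by
            rw [← abs_of_nonneg hX0, ← abs_mul, Finset.mul_sum, abs_of_nonneg hX0]
            congr 1
            exact Finset.sum_congr rfl fun u _ => by ring
        _ ≤ _ := him
    have hUZ : 0 ≤ (Fintype.card U : ℝ) * Z := by positivity
    calc X * ‖∑ u, a v u * (t u : ℂ)‖
        ≤ X * (|(∑ u, a v u * (t u : ℂ)).re| + |(∑ u, a v u * (t u : ℂ)).im|) := by gcongr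
      _ ≤ 4 * Fintype.card U * Z := by rw [mul_add]; nlinarith

end

end Pool.Agent.H46.HR
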