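import Pool.Agent.H72.HR.Targets
import Pool.Agent.H54.BF.ROOT
import Pool.Agent.H30.BF.REP
import Pool.Agent.H36.BF.LIO
import Pool.Agent.H65.BF.RQ

/-!
Module LIF of the board hrk_modules: Liouville inequality for integer combinations of monomials
with integer exponents in fixed nonzero algebraic numbers.
-/

open Finset Polynomial

namespace Pool.Agent.H46.HR

open Pool.Agent.H72.HR Pool.Agent.H72.BF Pool.Agent.H65.BF

/-- one factor -/
theorem lif_factor {ι : Type} [Fintype ι] [DecidableEq ι] {δ : ℕ} {θ : ι → ℂ} (R : RepC δ θ)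
    (hδ : 1 ≤ δ) {B a0 : ℝ} (ha0 : 0 ≤ a0) (hB : 0 ≤ B) {i i' : ι} (hi : IntB δ B (θ i))
    (hi' : IntB δ B (θ i'))
    {x : ℂ} {b b' : ℤ} (hb : |(b : ℝ)| ≤ Real.exp a0) (hb' : |(b' : ℝ)| ≤ Real.exp a0)
    (hθ : θ i = (b : ℂ) * x) (hθ' : θ i' = (b' : ℂ) * x⁻¹) (N : ℕ) (e : ℤ) (he : |e| ≤ N) :
    MulB δ θ (Real.exp ((2 * a0) * N) * (1 + B) ^ N) (((b : ℂ) * b') ^ N * x ^ e) := by
  have h1 : (1 : ℝ) ≤ Real.exp a0 := Real.one_le_exp ha0
  have h1B : (1 : ℝ) ≤ 1 + B := by linarith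
  rw [abs_le] at he
  obtain ⟨t, ht | ht⟩ := Int.eq_nat_or_neg e
  · have htN : t ≤ N := by omega
    have e0 : ((b : ℂ) * b') ^ N * x ^ e = ((b ^ (N - t) * b' ^ N : ℤ) : ℂ) * θ i ^ t := by
      rw [ht, zpow_natCast, hθ]
      push_cast
      rw [mul_pow, mul_pow]
      have : (b : ℂ) ^ N = b ^ (N - t) * b ^ t := by rw [← pow_add]; congr 1; omega
      rw [this]; ring
    rw [e0]
    refine ((R.mulInt _).mul ((R.mulTheta hi).pow t)).mono hδ ?_
    push_cast
    rw [abs_mul, abs_pow, abs_pow]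
    calc |(b : ℝ)| ^ (N - t) * |(b' : ℝ)| ^ N * (1 + B) ^ t
        ≤ Real.exp a0 ^ (N - t) * Real.exp a0 ^ N * (1 + B) ^ N := by gcongr
      _ ≤ Real.exp a0 ^ N * Real.exp a0 ^ N * (1 + B) ^ N := by
          gcongr
          · omega
      _ = _ := by rw [← Real.exp_nat_mul, ← Real.exp_add]; congr 2; ring
  · have htN : t ≤ N := by omega
    have e0 : ((b : ℂ) * b') ^ N * x ^ e = ((b' ^ (N - t) * b ^ N : ℤ) : ℂ) * θ i' ^ t := by
      rw [ht, zpow_neg, zpow_natCast, hθ']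
      push_cast
      rw [mul_pow, mul_pow]
      have : (b' : ℂ) ^ N = b' ^ (N - t) * b' ^ t := by rw [← pow_add]; congr 1; omega
      rw [this, inv_pow]; ring
    rw [e0]
    refine ((R.mulInt _).mul ((R.mulTheta hi').pow t)).mono hδ ?_
    push_cast
    rw [abs_mul, abs_pow, abs_pow]
    calc |(b' : ℝ)| ^ (N - t) * |(b : ℝ)| ^ N * (1 + B) ^ t
        ≤ Real.exp a0 ^ (N - t) * Real.exp a0 ^ N * (1 + B) ^ N := by gcongr
      _ ≤ Real.exp a0 ^ N * Real.exp a0 ^ N * (1 + B) ^ N := by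
          gcongr
          · omega
      _ = _ := by rw [← Real.exp_nat_mul, ← Real.exp_add]; congr 2; ring

theorem lif_target : T_LIF := by
  intro n al hal hal0
  choose dj Aj hAj0 halg using fun j => alg_exists (hal j)
  choose dj' Aj' hAj0' halg' using fun j => alg_exists (hal j).inv
  set δ : ℕ := 1 + ∑ j, dj j + ∑ j, dj' j with hδ
  have hδ1 : 1 ≤ δ := by omega
  set a0 : ℝ := ∑ j, Aj j + ∑ j, Aj' j with ha0
  have hs1 : 0 ≤ ∑ j, Aj j := Finset.sum_nonneg fun j _ => hAj0 j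
  have hs2 : 0 ≤ ∑ j, Aj' j := Finset.sum_nonneg fun j _ => hAj0' j
  have ha00 : 0 ≤ a0 := by positivity
  have hA1 : ∀ j, AlgB δ (Real.exp a0) (al j) := by
    intro j
    refine algB_mono (halg j) ?_ ?_
    · have := Finset.single_le_sum (f := dj) (fun _ _ => Nat.zero_le _) (Finset.mem_univ j)
      omega
    · have e1 : Aj j ≤ ∑ j, Aj j :=
        Finset.single_le_sum (f := Aj) (fun i _ => hAj0 i) (Finset.mem_univ j)
      have := Real.add_one_le_exp a0
      linarith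
  have hA2 : ∀ j, AlgB δ (Real.exp a0) (al j)⁻¹ := by
    intro j
    refine algB_mono (halg' j) ?_ ?_
    · have := Finset.single_le_sum (f := dj') (fun _ _ => Nat.zero_le _) (Finset.mem_univ j)
      omega
    · have e1 : Aj' j ≤ ∑ j, Aj' j :=
        Finset.single_le_sum (f := Aj') (fun i _ => hAj0' i) (Finset.mem_univ j)
      have := Real.add_one_le_exp a0
      linarith
  choose b hb_ne hb_b hb_int using
    fun j => Pool.Agent.H54.BF.alg δ (Real.exp a0) _ hδ1 (Real.one_le_exp ha00) (hA1 j)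
  choose b' hb_ne' hb_b' hb_int' using
    fun j => Pool.Agent.H54.BF.alg δ (Real.exp a0) _ hδ1 (Real.one_le_exp ha00) (hA2 j)
  set θ : Fin n ⊕ Fin n → ℂ := Sum.elim (fun j => (b j : ℂ) * al j)
    (fun j => (b' j : ℂ) * (al j)⁻¹) with hθ
  set B : ℝ := Real.exp a0 ^ δ with hB
  have hB0 : 0 ≤ B := by positivity
  have hθI : ∀ i, IntB δ B (θ i) := by
    rintro (j | j)
    · exact hb_int j
    · exact hb_int' j
  have R := repC Pool.Agent.H30.BF.rep (Fin n ⊕ Fin n) δ θ hδ1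
  set r := Fintype.card (Fin n ⊕ Fin n) with hr
  set k := δ ^ r with hk
  have hk1 : 1 ≤ k := Nat.one_le_pow _ _ hδ1
  set D : ℝ := (δ : ℝ) ^ r * ((1 + B) ^ δ) ^ r with hD
  have hD0 : 0 ≤ D := by positivity
  set G : ℝ := Real.exp (2 * a0) * (1 + B) with hG
  have hG1 : 1 ≤ G := by
    have h1 : (1 : ℝ) ≤ Real.exp (2 * a0) := Real.one_le_exp (by positivity)
    rw [hG]; nlinarith
  refine ⟨k, D ^ k + G * (n * k) + n * (2 * a0) + 1, by positivity, ?_⟩
  intro U _ a e Y N hY haY he hx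
  have hY0 : 0 ≤ Y := by linarith
  set x : ℂ := ∑ u, (a u : ℂ) * ∏ j, al j ^ (e u j) with hxd
  rcases Nat.eq_zero_or_pos N with hN | hN
  · have he0 : ∀ u j, e u j = 0 := by
      intro u j
      have := he u j
      rw [hN] at this
      simpa using this
    have hx1 : x = ((∑ u, a u : ℤ) : ℂ) := by
      rw [hxd]
      push_cast
      refine Finset.sum_congr rfl fun u _ => ?_
      simp [he0]
    have hne : (∑ u, a u : ℤ) ≠ 0 := by
      intro h
      rw [h] at hx1
      exact hx (by simpa using hx1)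
    have hx2 : (1 : ℝ) ≤ ‖x‖ := by
      rw [hx1, Complex.norm_intCast]
      exact_mod_cast Int.one_le_abs hne
    have h3 : (1 : ℝ) ≤ Y ^ k := one_le_pow₀ hY
    rw [hN]
    simp only [Nat.cast_zero, mul_zero, Real.exp_zero, mul_one]
    nlinarith
  have hN' : (1 : ℝ) ≤ N := by exact_mod_cast hN
  set den : ℤ := (∏ j, (b j * b' j)) ^ N with hden
  have hden0 : den ≠ 0 := pow_ne_zero _
    (Finset.prod_ne_zero_iff.mpr fun j _ => mul_ne_zero (hb_ne j) (hb_ne' j))
  have hrep : Rep δ θ (∑ u, |(a u : ℝ)| * (G ^ N) ^ n)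
      (∑ u, (a u : ℂ) * (∏ j, ((b j : ℂ) * b' j) ^ N * al j ^ (e u j))) := by
    apply R.sum
    intro u _
    apply R.smul
    have h1 : Rep δ θ 1 1 := by simpa using R.int 1
    have h2 := MulB.prod (δ := δ) (θ := θ) Finset.univ (fun j _ =>
      lif_factor R hδ1 ha00 hB0 (hθI (Sum.inl j)) (hθI (Sum.inr j)) (x := al j) (hb_b j)
        (hb_b' j)
        (by simp [hθ]) (by simp [hθ]) N (e u j) (he u j)) 1 1 h1
    rw [mul_one, mul_one, Finset.prod_const, Finset.card_univ, Fintype.card_fin] at h2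
    have h3 : Real.exp ((2 * a0) * N) * (1 + B) ^ N = G ^ N := by
      rw [hG, mul_pow, ← Real.exp_nat_mul]; congr 2; ring
    rw [h3] at h2
    exact h2
  have hval : (∑ u, (a u : ℂ) * (∏ j, ((b j : ℂ) * b' j) ^ N * al j ^ (e u j))) =
      (den : ℂ) * x := by
    rw [hxd, Finset.mul_sum]
    refine Finset.sum_congr rfl fun u _ => ?_
    rw [Finset.prod_mul_distrib, hden]
    push_cast
    rw [← Finset.prod_pow]
    ring
  rw [hval] at hrep
  have hYb : ∑ u, |(a u : ℝ)| * (G ^ N) ^ n ≤ Y * (G ^ N) ^ n := by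
    rw [← Finset.sum_mul]
    gcongr
  have hY1 : 1 ≤ Y * (G ^ N) ^ n := one_le_mul_of_one_le_of_one_le hY
    (one_le_pow₀ (one_le_pow₀ hG1))
  have hx0 : (den : ℂ) * x ≠ 0 := mul_ne_zero (by exact_mod_cast hden0) hx
  have hL := Pool.Agent.H36.BF.lio (Fin n ⊕ Fin n) δ θ (fun _ => B) _ _ hδ1 hY1 hθI
    (rep_mono hrep hYb) hx0
  rw [Finset.prod_const, Finset.card_univ, ← hr, norm_mul] at hL
  have hdn : ‖(den : ℂ)‖ ≤ Real.exp (n * (2 * a0) * N) := by
    rw [Complex.norm_intCast, hden]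
    push_cast
    rw [abs_pow, Finset.abs_prod]
    calc (∏ j, |(b j : ℝ) * b' j|) ^ N ≤ (∏ _j : Fin n, Real.exp (2 * a0)) ^ N := by
          gcongr with j _
          rw [abs_mul]
          calc |(b j : ℝ)| * |(b' j : ℝ)| ≤ Real.exp a0 * Real.exp a0 := by
                have := hb_b j
                have := hb_b' j
                gcongr
            _ = _ := by rw [← Real.exp_add]; congr 1; ring
      _ = _ := by
          rw [Finset.prod_const, Finset.card_univ, Fintype.card_fin, ← Real.exp_nat_mul,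
            ← Real.exp_nat_mul]
          congr 1; ring
  refine hL.trans ?_
  have b1 : D ^ k ≤ Real.exp (D ^ k * N) := by
    have h5 := Real.add_one_le_exp (D ^ k * N)
    have : D ^ k ≤ D ^ k * N := le_mul_of_one_le_right (by positivity) hN'
    linarith
  have b2 : ((G ^ N) ^ n) ^ k ≤ Real.exp (G * (n * k) * N) := by
    have h5 : G ≤ Real.exp G := by
      have := Real.add_one_le_exp G
      linarith
    calc ((G ^ N) ^ n) ^ k ≤ ((Real.exp G ^ N) ^ n) ^ k := by gcongr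
      _ = _ := by
          rw [← Real.exp_nat_mul, ← Real.exp_nat_mul, ← Real.exp_nat_mul]
          congr 1; ring
  calc ((δ : ℝ) ^ r * (Y * (G ^ N) ^ n) * ((1 + B) ^ δ) ^ r) ^ (δ ^ r) * (‖(den : ℂ)‖ * ‖x‖)
      = Y ^ k * (D ^ k * ((G ^ N) ^ n) ^ k * ‖(den : ℂ)‖) * ‖x‖ := by
        rw [hD, ← hk]
        simp only [mul_pow]
        ring
    _ ≤ Y ^ k * (Real.exp (D ^ k * N) * Real.exp (G * (n * k) * N) *
          Real.exp (n * (2 * a0) * N)) * ‖x‖ := by gcongr
    _ ≤ Y ^ k * Real.exp ((D ^ k + G * (n * k) + n * (2 * a0) + 1) * N) * ‖x‖ := by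
        rw [← Real.exp_add, ← Real.exp_add]
        gcongr
        nlinarith

end Pool.Agent.H46.HR
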