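import Pool.Agent.H72.HR.Defs2
import Pool.Agent.H30.BF.NU2
import Pool.Agent.H56.BF.Four
import Pool.Agent.H54.BF.SIE
import Pool.Agent.H46.HR.LIF

/-!
Module LVL of the board hrk_modules: Liouville inequality for the values of the derivatives of
the auxiliary polynomial.
-/

open Finset Polynomial

namespace Pool.Agent.H46.HR

open Pool.Agent.H72.HR Pool.Agent.H72.BF

/-- integrality and size of the polynomial part -/
theorem gf_int (h μ l m s : ℕ) (hμ : μ ≤ h) (κ : ℤ) (D : ℝ) (hD : 0 ≤ D)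
    (hder : ∀ k ≤ m, ‖(derivative^[k] (RP h μ l)).eval (s : ℂ)‖ ≤ k.factorial * D) :
    ∃ G : ℤ, (Nat.lcmUpto h : ℂ) ^ m * (Gf 1 (-(κ : ℂ)) (RP h μ l) m).eval (s : ℂ) = G ∧
      |(G : ℝ)| ≤ (Nat.lcmUpto h : ℝ) ^ m * (m.factorial * (1 + |(κ : ℝ)|) ^ m * D) := by
  have hν : (0 : ℝ) ≤ (Nat.lcmUpto h : ℝ) := Nat.cast_nonneg _
  choose! cc hcc using fun k (hk : k ≤ m) => Pool.Agent.H30.BF.nu2 h μ l k m s hμ hk
  set G : ℤ := ∑ k ∈ range (m + 1), (m.choose k : ℤ) * (-κ) ^ (m - k) * cc k with hG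
  have hval : (Nat.lcmUpto h : ℂ) ^ m * (Gf 1 (-(κ : ℂ)) (RP h μ l) m).eval (s : ℂ) = G := by
    rw [Pool.Agent.H56.BF.gfs, eval_finsetSum, Finset.mul_sum, hG]
    push_cast
    refine Finset.sum_congr rfl fun k hk => ?_
    have hk' : k ≤ m := Nat.lt_succ_iff.mp (mem_range.mp hk)
    rw [eval_mul, eval_C, ← hcc k hk']
    ring
  refine ⟨G, hval, ?_⟩
  have e1 : |(G : ℝ)| = ‖(G : ℂ)‖ := by rw [Complex.norm_intCast]
  rw [e1, ← hval, norm_mul, norm_pow, Complex.norm_natCast]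
  refine mul_le_mul_of_nonneg_left ?_ (pow_nonneg hν _)
  rw [Pool.Agent.H56.BF.gfs, eval_finsetSum]
  refine (norm_sum_le _ _).trans ?_
  calc ∑ k ∈ range (m + 1), ‖eval (s : ℂ) (C ((m.choose k : ℂ) * 1 ^ k * (-(κ : ℂ)) ^ (m - k)) *
        derivative^[k] (RP h μ l))‖
      ≤ ∑ k ∈ range (m + 1), (m.choose k : ℝ) * |(κ : ℝ)| ^ (m - k) * (m.factorial * D) := by
        refine Finset.sum_le_sum fun k hk => ?_
        have hk' : k ≤ m := Nat.lt_succ_iff.mp (mem_range.mp hk)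
        rw [eval_mul, eval_C, norm_mul, norm_mul, norm_mul, norm_pow, norm_pow, norm_neg,
          Complex.norm_natCast, Complex.norm_intCast, norm_one, one_pow, mul_one]
        have h1 : ‖(derivative^[k] (RP h μ l)).eval (s : ℂ)‖ ≤ m.factorial * D := by
          refine (hder k hk').trans ?_
          have : (k.factorial : ℝ) ≤ m.factorial := by exact_mod_cast Nat.factorial_le hk'
          gcongr
        gcongr
    _ = (m.factorial : ℝ) * (1 + |(κ : ℝ)|) ^ m * D := by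
        rw [← Finset.sum_mul, add_pow]
        simp only [one_pow, one_mul]
        rw [Finset.sum_congr rfl (fun k _ => mul_comm ((m.choose k : ℝ)) (|(κ : ℝ)| ^ (m - k)))]
        ring

theorem log_le_g0 (A g : ℕ) (hg : 16 * A ^ 2 + 6 ≤ g) : 1 + Real.log ((g : ℝ) ^ A + 2) ≤ g := by
  have hg' : (16 : ℝ) * A ^ 2 + 6 ≤ g := by exact_mod_cast hg
  have hg1 : (1 : ℝ) ≤ g := by nlinarith [sq_nonneg (A : ℝ)]
  have h1 : (1 : ℝ) ≤ (g : ℝ) ^ A := one_le_pow₀ hg1
  have h2 : Real.log ((g : ℝ) ^ A + 2) ≤ 2 + A * Real.log g := by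
    calc Real.log ((g : ℝ) ^ A + 2) ≤ Real.log (3 * (g : ℝ) ^ A) :=
          Real.log_le_log (by positivity) (by linarith)
      _ = Real.log 3 + A * Real.log g := by
          rw [Real.log_mul (by norm_num) (by positivity), Real.log_pow]
      _ ≤ 2 + A * Real.log g := by
          have : Real.log 3 ≤ 3 - 1 := Real.log_le_sub_one_of_pos (by norm_num)
          linarith
  set r : ℝ := Real.sqrt g with hr
  have hr2 : r * r = g := Real.mul_self_sqrt (by linarith)
  have hr0 : 0 ≤ r := Real.sqrt_nonneg _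
  have hrpos : 0 < r := Real.sqrt_pos.mpr (by linarith)
  have h3 : Real.log g ≤ 2 * r := by
    rw [← hr2, Real.log_mul hrpos.ne' hrpos.ne']
    have := Real.log_le_sub_one_of_pos hrpos
    linarith
  have h4 : 4 * (A : ℝ) ≤ r := by
    rw [hr]
    refine Real.le_sqrt_of_sq_le ?_
    nlinarith
  have h5 : (A : ℝ) * Real.log g ≤ g / 2 := by
    calc (A : ℝ) * Real.log g ≤ A * (2 * r) := by gcongr
      _ ≤ g / 2 := by rw [← hr2]; nlinarith
  have h6 : (6 : ℝ) ≤ g := by nlinarith [sq_nonneg (A : ℝ)]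
  linarith

theorem le_exp_self (x : ℝ) : x ≤ Real.exp x := by
  have := Real.add_one_le_exp x
  linarith

theorem exp_split {n : ℕ} {ρ τ : Type} [Fintype ρ] [Fintype τ] (lam : Fin n → ℂ)
    (q : Fin n → ρ → τ → ℤ) (s : ρ → ℤ) (m : τ → ℕ) :
    Complex.exp (∑ i, (s i : ℂ) * ∑ a, (m a : ℂ) * Lam lam q i a) =
      ∏ j, Complex.exp (lam j) ^ (∑ i, ∑ a, s i * ((m a : ℤ) * q j i a)) := by
  rw [Finset.prod_congr rfl (fun j _ => (Complex.exp_int_mul (lam j) _).symm), ← Complex.exp_sum]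
  congr 1
  simp only [Lam]
  push_cast
  simp only [Finset.mul_sum, Finset.sum_mul]
  rw [Finset.sum_comm (s := (Finset.univ : Finset (Fin n)))]
  refine Finset.sum_congr rfl fun i _ => ?_
  rw [Finset.sum_comm (s := (Finset.univ : Finset (Fin n)))]
  refine Finset.sum_congr rfl fun a _ => Finset.sum_congr rfl fun j _ => ?_
  ring

theorem lvl_target (hLIF : T_LIF) : T_LVL := by
  intro n lam hlam ρ τ _ _ _ _ c q C0
  obtain ⟨c1, hc1, hν⟩ := Pool.Agent.H56.BF.nu1
  obtain ⟨k0, cl, hcl, HL⟩ := hLIF n (fun k => Complex.exp (lam k)) hlam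
    (fun k => Complex.exp_ne_zero _)
  set C : ℝ := |C0| with hC
  have hC0 : 0 ≤ C := abs_nonneg _
  set r : ℕ := Fintype.card ρ with hr
  set t : ℕ := Fintype.card τ with ht
  set qq : ℕ := ∑ k, ∑ i, ∑ a, (q k i a).natAbs with hqq
  set c2 : ℝ := (r + t) + r * (c1 + C + 3) + (C + 1) with hc2
  have hc20 : 0 ≤ c2 := by positivity
  refine ⟨k0, k0 * c2 + cl * qq + c1 + 1, by positivity, ?_⟩
  intro A B Q hAQ hB1 hBQ
  refine ⟨16 * A ^ 2 + 6, fun g hg => ?_⟩
  have hlog := log_le_g0 A g hg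
  have hg1 : 1 ≤ g := by omega
  have hg1' : (1 : ℝ) ≤ g := by exact_mod_cast hg1
  set X : ℕ := g ^ Q with hX
  have hX1 : 1 ≤ X := Nat.one_le_pow _ _ hg1
  refine ⟨1 + (c + 1) * g ^ (Q - A) + X.factorial, fun h hh => ?_⟩
  intro ν k E hk hE p Z hZ hp x y s hxy hs hvl
  have hh1 : 1 ≤ h := by omega
  have hh1' : (1 : ℝ) ≤ h := by exact_mod_cast hh1
  have hX1' : (1 : ℝ) ≤ X := by exact_mod_cast hX1
  have hXr : (X : ℝ) = (g : ℝ) ^ Q := by rw [hX]; push_cast; rfl
  rw [← hXr]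
  set H : ℝ := h * X with hH
  have hH1 : 1 ≤ H := by rw [hH]; nlinarith
  have hhH : (h : ℝ) ≤ H := by rw [hH]; nlinarith
  have hXH : (X : ℝ) ≤ H := by rw [hH]; nlinarith
  have hxX : ∀ i, x i ≤ X := fun i => by
    have := Finset.single_le_sum (f := x) (fun _ _ => Nat.zero_le _) (Finset.mem_univ i)
    omega
  have hexpC : Real.exp (C0 * h) ≤ Real.exp (C * h) := by
    refine Real.exp_le_exp.mpr ?_
    have := le_abs_self C0
    gcongr
  have hexph : (1 : ℝ) + (c + 1) * (g : ℝ) ^ (Q - A) ≤ Real.exp h := by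
    have h1 : ((1 + (c + 1) * g ^ (Q - A) : ℕ) : ℝ) ≤ h := by exact_mod_cast (by omega)
    push_cast at h1
    exact h1.trans (le_exp_self _)
  have hfac : (X.factorial : ℝ) ≤ Real.exp H := by
    have h1 : (X.factorial : ℝ) ≤ h := by exact_mod_cast (by omega)
    exact (h1.trans hhH).trans (le_exp_self _)
  have hT1 : ∀ (u : Ux ρ τ h (g ^ (Q - B)) (g ^ (Q - A))) (a : τ),
      (((u.2 a : ℕ) : ℝ)) ≤ (g : ℝ) ^ (Q - A) := by
    intro u a
    have := (u.2 a).2.le
    exact_mod_cast this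
  have hexp1 : (1 : ℝ) ≤ Real.exp (C * h) := Real.one_le_exp (by positivity)
  have hgQ : (0 : ℝ) ≤ (g : ℝ) ^ (Q - A) := by positivity
  -- the size of `km` and `ga`
  have hkm : ∀ (u : Ux ρ τ h (g ^ (Q - B)) (g ^ (Q - A))) (i : ρ), |((km ν k u i : ℤ) : ℝ)| ≤ c * (g : ℝ) ^ (Q - A) * Real.exp (C * h) := by
    intro u i
    unfold km
    push_cast
    refine (Finset.abs_sum_le_sum_abs _ _).trans ?_
    calc ∑ l, |(k i l : ℝ) * ((u.2 (ν l) : ℕ) : ℝ)|
        ≤ ∑ _l : Fin c, Real.exp (C * h) * (g : ℝ) ^ (Q - A) := by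
          refine Finset.sum_le_sum fun l _ => ?_
          rw [abs_mul, Nat.abs_cast]
          have h1 := (hk i l).trans hexpC
          have h2 := hT1 u (ν l)
          gcongr
      _ = _ := by
          rw [Finset.sum_const, Finset.card_univ, Fintype.card_fin, nsmul_eq_mul]; ring
  have hkm' : ∀ (u : Ux ρ τ h (g ^ (Q - B)) (g ^ (Q - A))) (i : ρ), 1 + |((km ν k u i : ℤ) : ℝ)| ≤ Real.exp ((C + 1) * h) := by
    intro u i
    have h1 := hkm u i
    have h2 : Real.exp ((C + 1) * h) = Real.exp (C * h) * Real.exp h := by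
      rw [← Real.exp_add]; congr 1; ring
    rw [h2]
    nlinarith
  have hga : ∀ (u : Ux ρ τ h (g ^ (Q - B)) (g ^ (Q - A))) (a : τ), |((ga ν E u a : ℤ) : ℝ)| ≤ Real.exp ((C + 1) * h) := by
    intro u a
    unfold ga
    push_cast
    have h0 : |∑ l, (E l a : ℝ) * ((u.2 (ν l) : ℕ) : ℝ)| ≤
        c * (g : ℝ) ^ (Q - A) * Real.exp (C * h) := by
      refine (Finset.abs_sum_le_sum_abs _ _).trans ?_
      calc ∑ l, |(E l a : ℝ) * ((u.2 (ν l) : ℕ) : ℝ)|
          ≤ ∑ _l : Fin c, Real.exp (C * h) * (g : ℝ) ^ (Q - A) := by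
            refine Finset.sum_le_sum fun l _ => ?_
            rw [abs_mul, Nat.abs_cast]
            have h1 := (hE l a).trans hexpC
            have h2 := hT1 u (ν l)
            gcongr
        _ = _ := by
            rw [Finset.sum_const, Finset.card_univ, Fintype.card_fin, nsmul_eq_mul]; ring
    have h2 : Real.exp ((C + 1) * h) = Real.exp (C * h) * Real.exp h := by
      rw [← Real.exp_add]; congr 1; ring
    have h3 := hT1 u a
    refine (abs_sub _ _).trans ?_
    rw [Nat.abs_cast, h2]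
    nlinarith
  -- the polynomial part
  have hG : ∀ (u : Ux ρ τ h (g ^ (Q - B)) (g ^ (Q - A))) (i : ρ), ∃ G : ℤ,
      (Nat.lcmUpto h : ℂ) ^ (x i) *
        (Gf 1 (-(km ν k u i : ℂ)) (rp u i) (x i)).eval (s i : ℂ) = G ∧
      |(G : ℝ)| ≤ Real.exp ((c1 + C + 3) * H) := by
    intro u i
    obtain ⟨si, hsi⟩ := Int.eq_ofNat_of_zero_le (hs i).1
    have hsb : (si : ℝ) ≤ (g : ℝ) ^ A * h := by
      have h1 := (hs i).2
      rw [hsi] at h1
      have h2 : si ≤ h * g ^ A := by exact_mod_cast h1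
      have h3 : (si : ℝ) ≤ h * (g : ℝ) ^ A := by exact_mod_cast h2
      linarith
    set L0 : ℕ := g ^ (Q - B) - 1 with hL0
    have hL1 : 1 ≤ g ^ (Q - B) := Nat.one_le_pow _ _ hg1
    have hL0' : (L0 : ℝ) + 1 = (g : ℝ) ^ (Q - B) := by
      have : L0 + 1 = g ^ (Q - B) := by omega
      exact_mod_cast this
    set D : ℝ := Real.exp (h * ((L0 + 1) * (1 + Real.log ((g : ℝ) ^ A + 2)))) with hD
    obtain ⟨G, hG1, hG2⟩ := gf_int h (u.1 i).1 (u.1 i).2 (x i) si (u.1 i).1.2.le (km ν k u i) D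
      (Real.exp_pos _).le (fun k' _ => Pool.Agent.H54.BF.bin h (u.1 i).1 (u.1 i).2 L0 k'
        ((g : ℝ) ^ A) (si : ℂ) hh1 (u.1 i).1.2.le (by have := (u.1 i).2.2; omega)
        (by positivity) (by rw [Complex.norm_natCast]; exact hsb))
    refine ⟨G, ?_, hG2.trans ?_⟩
    · rw [← hG1, hsi]
      unfold rp
      push_cast
      rfl
    · have hD' : D ≤ Real.exp H := by
        rw [hD, hL0', hH, hXr]
        refine Real.exp_le_exp.mpr ?_
        have h1 : (g : ℝ) ^ (Q - B) * (1 + Real.log ((g : ℝ) ^ A + 2)) ≤ (g : ℝ) ^ Q := by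
          calc (g : ℝ) ^ (Q - B) * (1 + Real.log ((g : ℝ) ^ A + 2)) ≤ (g : ℝ) ^ (Q - B) * g := by
                gcongr
            _ = (g : ℝ) ^ (Q - B + 1) := by rw [pow_succ]
            _ ≤ (g : ℝ) ^ Q := pow_le_pow_right₀ hg1' (by omega)
        gcongr
      have hxi : ((x i : ℕ) : ℝ) ≤ X := by exact_mod_cast hxX i
      have a1 : (Nat.lcmUpto h : ℝ) ^ (x i) ≤ Real.exp (c1 * H) := by
        calc (Nat.lcmUpto h : ℝ) ^ (x i) ≤ Real.exp (c1 * h) ^ (x i) := by
              have := hν h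
              gcongr
          _ = Real.exp ((x i : ℝ) * (c1 * h)) := by rw [← Real.exp_nat_mul]
          _ ≤ Real.exp (c1 * H) := by
              refine Real.exp_le_exp.mpr ?_
              rw [hH]
              have : (x i : ℝ) * (c1 * h) ≤ X * (c1 * h) := by gcongr
              linarith
      have a2 : ((x i).factorial : ℝ) ≤ Real.exp H := by
        have : ((x i).factorial : ℝ) ≤ X.factorial := by
          exact_mod_cast Nat.factorial_le (hxX i)
        linarith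
      have a3 : (1 + |((km ν k u i : ℤ) : ℝ)|) ^ (x i) ≤ Real.exp ((C + 1) * H) := by
        calc (1 + |((km ν k u i : ℤ) : ℝ)|) ^ (x i) ≤ Real.exp ((C + 1) * h) ^ (x i) := by
              have := hkm' u i
              gcongr
          _ = Real.exp ((x i : ℝ) * ((C + 1) * h)) := by rw [← Real.exp_nat_mul]
          _ ≤ Real.exp ((C + 1) * H) := by
              refine Real.exp_le_exp.mpr ?_
              rw [hH]
              have : (x i : ℝ) * ((C + 1) * h) ≤ X * ((C + 1) * h) := by gcongr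
              linarith
      calc (Nat.lcmUpto h : ℝ) ^ (x i) *
            ((x i).factorial * (1 + |((km ν k u i : ℤ) : ℝ)|) ^ (x i) * D)
          ≤ Real.exp (c1 * H) * (Real.exp H * Real.exp ((C + 1) * H) * Real.exp H) := by gcongr
        _ = _ := by
            rw [← Real.exp_add, ← Real.exp_add, ← Real.exp_add]; congr 1; ring
  choose G hG1 hG2 using hG
  -- the exponentials
  set e : Ux ρ τ h (g ^ (Q - B)) (g ^ (Q - A)) → Fin n → ℤ :=
    fun u j => ∑ i, ∑ a, s i * (((u.2 a : ℕ) : ℤ) * q j i a) with he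
  have hexp : ∀ u : Ux ρ τ h (g ^ (Q - B)) (g ^ (Q - A)),
      Complex.exp (∑ i, (s i : ℂ) * th lam q u i) = ∏ j, Complex.exp (lam j) ^ (e u j) := by
    intro u
    exact exp_split lam q s fun a => (u.2 a : ℕ)
  have heb : ∀ u j, |e u j| ≤ ((qq * (h * X) : ℕ) : ℤ) := by
    intro u j
    have h1 : |e u j| ≤ ∑ i, ∑ a, (h * X : ℤ) * ((q j i a).natAbs : ℤ) := by
      rw [he]
      refine (Finset.abs_sum_le_sum_abs _ _).trans (Finset.sum_le_sum fun i _ => ?_)
      refine (Finset.abs_sum_le_sum_abs _ _).trans (Finset.sum_le_sum fun a _ => ?_)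
      rw [abs_mul, abs_mul, Nat.abs_cast, abs_of_nonneg (hs i).1]
      have h2 := (hs i).2
      have h3 : ((u.2 a : ℕ) : ℤ) ≤ (g : ℤ) ^ (Q - A) := by
        have := (u.2 a).2.le
        exact_mod_cast this
      have h4 : ((X : ℕ) : ℤ) = (g : ℤ) ^ A * (g : ℤ) ^ (Q - A) := by
        rw [hX, ← pow_add]; push_cast; congr 1; omega
      rw [Int.natCast_natAbs, h4]
      calc s i * (((u.2 a : ℕ) : ℤ) * |q j i a|)
          ≤ (h * (g : ℤ) ^ A) * ((g : ℤ) ^ (Q - A) * |q j i a|) := by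
            gcongr
        _ = _ := by ring
    refine h1.trans ?_
    have h5 : ∑ i, ∑ a, (q j i a).natAbs ≤ qq := by
      rw [hqq]
      exact Finset.single_le_sum (f := fun j => ∑ i, ∑ a, (q j i a).natAbs)
        (fun _ _ => Nat.zero_le _) (Finset.mem_univ j)
    have h6 : ∑ i, ∑ a, (h * X : ℤ) * ((q j i a).natAbs : ℤ) =
        (h * X : ℤ) * ((∑ i, ∑ a, (q j i a).natAbs : ℕ) : ℤ) := by
      push_cast
      rw [Finset.mul_sum]
      refine Finset.sum_congr rfl fun i _ => ?_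
      rw [Finset.mul_sum]
    rw [h6]
    push_cast
    have h7 : ((∑ i, ∑ a, (q j i a).natAbs : ℕ) : ℤ) ≤ qq := by exact_mod_cast h5
    push_cast at h7
    have h8 : (0 : ℤ) ≤ (h * X : ℤ) := by positivity
    nlinarith
  -- the integer coefficients
  set av : Ux ρ τ h (g ^ (Q - B)) (g ^ (Q - A)) → ℤ :=
    fun u => p u * (∏ i, G u i) * ∏ a, ga ν E u a ^ y a with hav
  have hsum : ∑ u, (av u : ℂ) * ∏ j, Complex.exp (lam j) ^ (e u j) =
      (Nat.lcmUpto h : ℂ) ^ (∑ i, x i) * vl lam q ν k E p x y s := by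
    unfold vl
    rw [Finset.mul_sum]
    refine Finset.sum_congr rfl fun u _ => ?_
    rw [hexp, hav]
    push_cast
    have h1 : ∏ i, (G u i : ℂ) = (Nat.lcmUpto h : ℂ) ^ (∑ i, x i) *
        ∏ i, (Gf 1 (-(km ν k u i : ℂ)) (rp u i) (x i)).eval (s i : ℂ) := by
      rw [← Finset.prod_pow_eq_pow_sum, ← Finset.prod_mul_distrib]
      exact Finset.prod_congr rfl fun i _ => (hG1 u i).symm
    rw [h1]
    ring
  set Y : ℝ := Z * Real.exp (c2 * H) with hY
  have hexp2 : (1 : ℝ) ≤ Real.exp (c2 * H) := Real.one_le_exp (by positivity)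
  have hY1 : 1 ≤ Y := by rw [hY]; nlinarith
  have hgaP : ∀ u : Ux ρ τ h (g ^ (Q - B)) (g ^ (Q - A)),
      |∏ a, ((ga ν E u a : ℤ) : ℝ) ^ y a| ≤ Real.exp ((C + 1) * H) := by
    intro u
    rw [Finset.abs_prod]
    calc ∏ a, |((ga ν E u a : ℤ) : ℝ) ^ y a| ≤ ∏ a, Real.exp ((C + 1) * h) ^ y a := by
          refine Finset.prod_le_prod (fun _ _ => abs_nonneg _) fun a _ => ?_
          rw [abs_pow]
          have := hga u a
          gcongr
      _ = Real.exp ((∑ a, y a : ℕ) * ((C + 1) * h)) := by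
          rw [Finset.prod_pow_eq_pow_sum, ← Real.exp_nat_mul]
      _ ≤ Real.exp ((C + 1) * H) := by
          refine Real.exp_le_exp.mpr ?_
          have h1 : ((∑ a, y a : ℕ) : ℝ) ≤ X := by exact_mod_cast (by omega)
          rw [hH]
          have : ((∑ a, y a : ℕ) : ℝ) * ((C + 1) * h) ≤ X * ((C + 1) * h) := by gcongr
          linarith
  have hGP : ∀ u : Ux ρ τ h (g ^ (Q - B)) (g ^ (Q - A)),
      |∏ i, (G u i : ℝ)| ≤ Real.exp (r * (c1 + C + 3) * H) := by
    intro u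
    rw [Finset.abs_prod]
    calc ∏ i, |(G u i : ℝ)| ≤ ∏ _i : ρ, Real.exp ((c1 + C + 3) * H) :=
          Finset.prod_le_prod (fun _ _ => abs_nonneg _) fun i _ => hG2 u i
      _ = _ := by
          rw [Finset.prod_const, Finset.card_univ, ← hr, ← Real.exp_nat_mul]
          congr 1; ring
  have hcard : (Fintype.card (Ux ρ τ h (g ^ (Q - B)) (g ^ (Q - A))) : ℝ) ≤
      Real.exp ((r + t) * H) := by
    have h1 : (Fintype.card (Ux ρ τ h (g ^ (Q - B)) (g ^ (Q - A))) : ℝ) =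
        ((h : ℝ) * (g : ℝ) ^ (Q - B)) ^ r * ((g : ℝ) ^ (Q - A)) ^ t := by
      simp [Ux, hr, ht]
    have h2 : (g : ℝ) ^ (Q - B) ≤ X := by
      rw [hXr]; exact pow_le_pow_right₀ hg1' (by omega)
    have h3 : (g : ℝ) ^ (Q - A) ≤ X := by
      rw [hXr]; exact pow_le_pow_right₀ hg1' (by omega)
    have h4 : (h : ℝ) * (g : ℝ) ^ (Q - B) ≤ Real.exp H := by
      calc (h : ℝ) * (g : ℝ) ^ (Q - B) ≤ h * X := by gcongr
        _ ≤ Real.exp H := le_exp_self _
    have h5 : (g : ℝ) ^ (Q - A) ≤ Real.exp H := (h3.trans hXH).trans (le_exp_self _)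
    rw [h1]
    calc ((h : ℝ) * (g : ℝ) ^ (Q - B)) ^ r * ((g : ℝ) ^ (Q - A)) ^ t
        ≤ Real.exp H ^ r * Real.exp H ^ t := by gcongr
      _ = _ := by
          rw [← Real.exp_nat_mul, ← Real.exp_nat_mul, ← Real.exp_add]
          congr 1; ring
  have haY : ∑ u, |(av u : ℝ)| ≤ Y := by
    calc ∑ u, |(av u : ℝ)| ≤ ∑ _u : Ux ρ τ h (g ^ (Q - B)) (g ^ (Q - A)),
          Z * Real.exp (r * (c1 + C + 3) * H) * Real.exp ((C + 1) * H) := by
          refine Finset.sum_le_sum fun u _ => ?_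
          rw [hav]
          push_cast
          rw [abs_mul, abs_mul]
          have h1 := hp u
          have h2 := hGP u
          have h3 := hgaP u
          gcongr
      _ = (Fintype.card (Ux ρ τ h (g ^ (Q - B)) (g ^ (Q - A))) : ℝ) *
          (Z * Real.exp (r * (c1 + C + 3) * H) * Real.exp ((C + 1) * H)) := by
          rw [Finset.sum_const, Finset.card_univ, nsmul_eq_mul]
      _ ≤ Real.exp ((r + t) * H) *
          (Z * Real.exp (r * (c1 + C + 3) * H) * Real.exp ((C + 1) * H)) := by gcongr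
      _ = Y := by
          have e1 : c2 * H = (r + t) * H + r * (c1 + C + 3) * H + (C + 1) * H := by
            rw [hc2]; ring
          rw [hY, e1, Real.exp_add, Real.exp_add]; ring
  have hlcm : (Nat.lcmUpto h : ℂ) ≠ 0 := by exact_mod_cast Nat.lcmUpto_ne_zero h
  have hmain := HL _ av e Y (qq * (h * X)) hY1 haY heb
    (by rw [hsum]; exact mul_ne_zero (pow_ne_zero _ hlcm) hvl)
  rw [hsum, norm_mul, norm_pow, Complex.norm_natCast] at hmain
  refine hmain.trans ?_
  have b1 : (Nat.lcmUpto h : ℝ) ^ (∑ i, x i) ≤ Real.exp (c1 * H) := by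
    calc (Nat.lcmUpto h : ℝ) ^ (∑ i, x i) ≤ Real.exp (c1 * h) ^ (∑ i, x i) := by
          have := hν h
          gcongr
      _ = Real.exp ((∑ i, x i : ℕ) * (c1 * h)) := by rw [← Real.exp_nat_mul]
      _ ≤ Real.exp (c1 * H) := by
          refine Real.exp_le_exp.mpr ?_
          have h1 : ((∑ i, x i : ℕ) : ℝ) ≤ X := by exact_mod_cast (by omega)
          rw [hH]
          have : ((∑ i, x i : ℕ) : ℝ) * (c1 * h) ≤ X * (c1 * h) := by gcongr
          linarith
  calc Y ^ k0 * Real.exp (cl * ((qq * (h * X) : ℕ) : ℝ)) *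
        ((Nat.lcmUpto h : ℝ) ^ (∑ i, x i) * ‖vl lam q ν k E p x y s‖)
      ≤ Y ^ k0 * Real.exp (cl * ((qq * (h * X) : ℕ) : ℝ)) *
        (Real.exp (c1 * H) * ‖vl lam q ν k E p x y s‖) := by gcongr
    _ = Z ^ k0 * Real.exp ((k0 * c2 + cl * qq + c1) * H) * ‖vl lam q ν k E p x y s‖ := by
        rw [hY, mul_pow, ← Real.exp_nat_mul]
        have h1 : (k0 * c2 + cl * qq + c1) * H = k0 * (c2 * H) + cl * ((qq * (h * X) : ℕ) : ℝ) +
            c1 * H := by
          rw [hH]; push_cast; ring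
        rw [h1, Real.exp_add, Real.exp_add]
        ring
    _ ≤ _ := by
        have h1 : Real.exp ((k0 * c2 + cl * qq + c1) * H) ≤
            Real.exp ((k0 * c2 + cl * qq + c1 + 1) * H) := by
          refine Real.exp_le_exp.mpr ?_
          nlinarith
        gcongr

theorem lvl : T_LVL := lvl_target lif_target

end Pool.Agent.H46.HR
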