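import Pool.Agent.H72.HRA.Targets
import Pool.Agent.H46.HR.LVL

/-!
Module LVLA of the board hrk_modules: Liouville inequality for the values of the derivatives of
the auxiliary polynomial, algebraic coefficients.
-/

open Finset Polynomial

namespace Pool.Agent.H46.HR

open Pool.Agent.H72.HR Pool.Agent.H72.HRA Pool.Agent.H72.BF Pool.Agent.H65.BF

section

variable {ι : Type} [Fintype ι] [DecidableEq ι] {δ : ℕ} {θ : ι → ℂ}

theorem mulB_sum (R : RepC δ θ) {κ : Type*} (s : Finset κ) {G : κ → ℝ} {f : κ → ℂ}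
    (h : ∀ k ∈ s, MulB δ θ (G k) (f k)) : MulB δ θ (∑ k ∈ s, G k) (∑ k ∈ s, f k) := by
  intro Y x hx
  rw [Finset.sum_mul, Finset.sum_mul]
  exact R.sum s _ _ fun k hk => h k hk Y x hx

theorem gfa_mulB (R : RepC δ θ) (hδ : 1 ≤ δ) (h μ l m s : ℕ) (hμ : μ ≤ h) (κ : ℂ) (d : ℤ) (K1 D : ℝ)
    (hK1 : 0 ≤ K1) (hD : 0 ≤ D) (hκ : MulB δ θ K1 ((d : ℂ) * κ))
    (hder : ∀ k ≤ m, ‖(derivative^[k] (RP h μ l)).eval (s : ℂ)‖ ≤ k.factorial * D) :
    MulB δ θ ((Nat.lcmUpto h : ℝ) ^ m * (m.factorial * (|(d : ℝ)| + K1) ^ m * D))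
      (((Nat.lcmUpto h : ℂ) ^ m * (d : ℂ) ^ m) * (Gf 1 (-κ) (RP h μ l) m).eval (s : ℂ)) := by
  have hν : (0 : ℝ) ≤ (Nat.lcmUpto h : ℝ) := Nat.cast_nonneg _
  choose! cc hcc using fun k (hk : k ≤ m) => Pool.Agent.H30.BF.nu2 h μ l k m s hμ hk
  have hval : ((Nat.lcmUpto h : ℂ) ^ m * (d : ℂ) ^ m) * (Gf 1 (-κ) (RP h μ l) m).eval (s : ℂ) =
      ∑ k ∈ range (m + 1), (((m.choose k : ℤ) * (-1) ^ (m - k) * d ^ k * cc k : ℤ) : ℂ) *
        ((d : ℂ) * κ) ^ (m - k) := by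
    rw [Pool.Agent.H56.BF.gfs, eval_finsetSum, Finset.mul_sum]
    push_cast
    refine Finset.sum_congr rfl fun k hk => ?_
    have hk' : k ≤ m := Nat.lt_succ_iff.mp (mem_range.mp hk)
    have e1 : (d : ℂ) ^ m = d ^ k * d ^ (m - k) := by rw [← pow_add]; congr 1; omega
    rw [eval_mul, eval_C, ← hcc k hk', e1, mul_pow, neg_pow κ]
    ring
  rw [hval]
  have hcb : ∀ k ≤ m, |(cc k : ℝ)| ≤ (Nat.lcmUpto h : ℝ) ^ m * (m.factorial * D) := by
    intro k hk
    have e1 : |(cc k : ℝ)| = ‖(cc k : ℂ)‖ := by rw [Complex.norm_intCast]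
    rw [e1, ← hcc k hk, norm_mul, norm_pow, Complex.norm_natCast]
    refine mul_le_mul_of_nonneg_left ?_ (pow_nonneg hν _)
    refine (hder k hk).trans ?_
    have : (k.factorial : ℝ) ≤ m.factorial := by exact_mod_cast Nat.factorial_le hk
    gcongr
  refine (mulB_sum R (range (m + 1)) fun k _ => (R.mulInt _).mul (hκ.pow (m - k))).mono hδ ?_
  calc ∑ k ∈ range (m + 1), |(((m.choose k : ℤ) * (-1) ^ (m - k) * d ^ k * cc k : ℤ) : ℝ)| *
        K1 ^ (m - k)
      ≤ ∑ k ∈ range (m + 1), (m.choose k : ℝ) * |(d : ℝ)| ^ k *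
          ((Nat.lcmUpto h : ℝ) ^ m * (m.factorial * D)) * K1 ^ (m - k) := by
        refine Finset.sum_le_sum fun k hk => ?_
        have hk' : k ≤ m := Nat.lt_succ_iff.mp (mem_range.mp hk)
        push_cast
        rw [abs_mul, abs_mul, abs_mul, abs_pow, abs_pow, abs_neg, abs_one, one_pow, mul_one,
          Nat.abs_cast]
        have := hcb k hk'
        gcongr
    _ = (Nat.lcmUpto h : ℝ) ^ m * (m.factorial * (|(d : ℝ)| + K1) ^ m * D) := by
        rw [add_pow]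
        simp only [Finset.mul_sum, Finset.sum_mul]
        exact Finset.sum_congr rfl fun k _ => by ring

/-- the product of all denominators of a family -/
theorem prodErase {κ : Type} [Fintype κ] [DecidableEq κ] (d : κ → ℤ) (A : ℝ) (hA : 1 ≤ A)
    (hd : ∀ l, |(d l : ℝ)| ≤ A) (l : κ) :
    |((∏ l' ∈ univ.erase l, d l' : ℤ) : ℝ)| ≤ A ^ Fintype.card κ := by
  push_cast
  rw [Finset.abs_prod]
  calc ∏ l' ∈ univ.erase l, |(d l' : ℝ)| ≤ ∏ _l' ∈ univ.erase l, A :=
        Finset.prod_le_prod (fun _ _ => abs_nonneg _) fun l' _ => hd l'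
    _ = A ^ (univ.erase l).card := by rw [Finset.prod_const]
    _ ≤ A ^ Fintype.card κ := pow_le_pow_right₀ hA (by
        rw [← Finset.card_univ]; exact Finset.card_le_card (Finset.erase_subset _ _))

theorem prodAll {κ : Type} [Fintype κ] (d : κ → ℤ) (A : ℝ)
    (hd : ∀ l, |(d l : ℝ)| ≤ A) :
    |((∏ l', d l' : ℤ) : ℝ)| ≤ A ^ Fintype.card κ := by
  push_cast
  rw [Finset.abs_prod]
  calc ∏ l', |(d l' : ℝ)| ≤ ∏ _l' : κ, A :=
        Finset.prod_le_prod (fun _ _ => abs_nonneg _) fun l' _ => hd l'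
    _ = A ^ Fintype.card κ := by rw [Finset.prod_const, Finset.card_univ]

/-- linear forms in the algebraic numbers with small natural coefficients -/
theorem lin_mulB (R : RepC δ θ) (hδ : 1 ≤ δ) {κ : Type} [Fintype κ] [DecidableEq κ] (d : κ → ℤ)
    (A B T : ℝ) (hA : 1 ≤ A) (hB : 0 ≤ B) (hd : ∀ l, |(d l : ℝ)| ≤ A)
    (z : κ → ℂ) (j : κ → ι) (hj : ∀ l, θ (j l) = (d l : ℂ) * z l) (hI : ∀ l, IntB δ B (θ (j l)))
    (m : κ → ℕ) (hm : ∀ l, (m l : ℝ) ≤ T) :
    MulB δ θ (Fintype.card κ * (A ^ Fintype.card κ * T * (1 + B)))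
      (((∏ l, d l : ℤ) : ℂ) * ∑ l, z l * (m l : ℂ)) := by
  have hval : ((∏ l, d l : ℤ) : ℂ) * ∑ l, z l * (m l : ℂ) =
      ∑ l, (((∏ l' ∈ univ.erase l, d l') * m l : ℤ) : ℂ) * θ (j l) := by
    rw [Finset.mul_sum]
    refine Finset.sum_congr rfl fun l _ => ?_
    rw [hj, ← Finset.mul_prod_erase univ d (Finset.mem_univ l)]
    push_cast
    ring
  rw [hval]
  refine (mulB_sum R univ fun l _ => (R.mulInt _).mul (R.mulTheta (hI l))).mono hδ ?_
  calc ∑ l, |(((∏ l' ∈ univ.erase l, d l') * m l : ℤ) : ℝ)| * (1 + B)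
      ≤ ∑ _l : κ, A ^ Fintype.card κ * T * (1 + B) := by
        refine Finset.sum_le_sum fun l _ => ?_
        have h1 := prodErase d A hA hd l
        have h2 := hm l
        rw [Int.cast_mul, abs_mul, Int.cast_natCast, Nat.abs_cast]
        gcongr
    _ = _ := by rw [Finset.sum_const, Finset.card_univ, nsmul_eq_mul]

end

theorem one_add_exp_mul_le {x h : ℝ} (hx : 0 ≤ x) (hh : 1 ≤ h) :
    1 + Real.exp (x * h) ≤ Real.exp ((x + 1) * h) := by
  refine (one_add_exp_le (by positivity)).trans (Real.exp_le_exp.mpr ?_)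
  nlinarith

theorem aux1 {P T B D c : ℝ} (hP : 0 ≤ P) (hT : 0 ≤ T) (hB : 0 ≤ B)
    (h5 : D ≤ P * T) : D + c * (P * T * (1 + B)) ≤ P * (1 + (c + 1) * T) * (1 + B) := by
  have h6 : 0 ≤ P * T * B := by positivity
  have h7 : 0 ≤ P * (1 + B) := by positivity
  nlinarith

theorem aux2 {P T B D c : ℝ} (hP : 0 ≤ P) (hT : 0 ≤ T) (hB : 0 ≤ B)
    (h5 : D ≤ P) : D + c * (P * T * (1 + B)) ≤ P * (1 + (c + 1) * T) * (1 + B) := by
  have h6 : 0 ≤ P * T * (1 + B) := by positivity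
  have h7 : 0 ≤ P * B := by positivity
  nlinarith

theorem aux3 {δ C a h : ℝ} (hδ : 0 ≤ δ) (ha : 0 ≤ a) (hh : 1 ≤ h) :
    δ * (C * h) ≤ δ * (C + a) * h := by
  have : 0 ≤ δ * a * h := by positivity
  nlinarith

theorem aux4 {δ C a h : ℝ} (hδ : 0 ≤ δ) (hC : 0 ≤ C) (ha : 0 ≤ a) (hh : 1 ≤ h) :
    δ * a ≤ δ * (C + a) * h := by
  have h1 : 0 ≤ δ * C * h := by positivity
  have h2 : δ * a ≤ δ * a * h := le_mul_of_one_le_right (by positivity) hh
  nlinarith

theorem lvla_target : T_LVLA := by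
  intro n lam hlam ρ τ _ _ _ _ c δ0 q C0
  obtain ⟨c1, hc1, hν⟩ := Pool.Agent.H56.BF.nu1
  -- the fixed algebraic numbers
  set al : Fin n → ℂ := fun j => Complex.exp (lam j) with hal
  have hal0 : ∀ j, al j ≠ 0 := fun j => Complex.exp_ne_zero _
  choose dj Aj hAj0 halg using fun j => alg_exists (hlam j)
  choose dj' Aj' hAj0' halg' using fun j => alg_exists (hlam j).inv
  set δ : ℕ := 1 + δ0 + ∑ j, dj j + ∑ j, dj' j with hδ
  have hδ1 : 1 ≤ δ := by omega
  have hδr : (1 : ℝ) ≤ δ := by exact_mod_cast hδ1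
  set a0 : ℝ := ∑ j, Aj j + ∑ j, Aj' j with ha0
  have hs1 : 0 ≤ ∑ j, Aj j := Finset.sum_nonneg fun j _ => hAj0 j
  have hs2 : 0 ≤ ∑ j, Aj' j := Finset.sum_nonneg fun j _ => hAj0' j
  have ha00 : 0 ≤ a0 := by positivity
  have hA1 : ∀ j, AlgB δ (Real.exp a0) (al j) := by
    intro j
    refine algB_mono (halg j) ?_ ?_
    · have := Finset.single_le_sum (f := dj) (fun _ _ => Nat.zero_le _) (Finset.mem_univ j)
      omega
    · have e1 : Aj j ≤ ∑ j, Aj j :=
        Finset.single_le_sum (f := Aj) (fun i _ => hAj0 i) (Finset.mem_univ j)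
      have := Real.add_one_le_exp a0
      linarith
  have hA2 : ∀ j, AlgB δ (Real.exp a0) (al j)⁻¹ := by
    intro j
    refine algB_mono (halg' j) ?_ ?_
    · have := Finset.single_le_sum (f := dj') (fun _ _ => Nat.zero_le _) (Finset.mem_univ j)
      omega
    · have e1 : Aj' j ≤ ∑ j, Aj' j :=
        Finset.single_le_sum (f := Aj') (fun i _ => hAj0' i) (Finset.mem_univ j)
      have := Real.add_one_le_exp a0
      linarith
  choose b hb_ne hb_b hb_int using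
    fun j => Pool.Agent.H54.BF.alg δ (Real.exp a0) _ hδ1 (Real.one_le_exp ha00) (hA1 j)
  choose b' hb_ne' hb_b' hb_int' using
    fun j => Pool.Agent.H54.BF.alg δ (Real.exp a0) _ hδ1 (Real.one_le_exp ha00) (hA2 j)
  set B' : ℝ := Real.exp a0 ^ δ with hB'
  have hB'0 : 0 ≤ B' := by positivity
  -- constants
  set C : ℝ := |C0| with hC
  have hC0 : 0 ≤ C := abs_nonneg _
  set r : ℕ := Fintype.card ρ with hr
  set t : ℕ := Fintype.card τ with ht
  set qq : ℕ := ∑ k, ∑ i, ∑ a, (q k i a).natAbs with hqq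
  set C1 : ℝ := δ * (C + a0) with hC1
  have hC10 : 0 ≤ C1 := by positivity
  set C2 : ℝ := C * c + C * δ + 2 with hC2
  have hC20 : 0 ≤ C2 := by positivity
  set G0 : ℝ := Real.exp (2 * a0) * (1 + B') with hG0
  have hG01 : 1 ≤ G0 := by
    have h1 : (1 : ℝ) ≤ Real.exp (2 * a0) := Real.one_le_exp (by positivity)
    exact one_le_mul_of_one_le_of_one_le h1 (by linarith)
  set rr : ℕ := Fintype.card ((ρ × Fin c) ⊕ (Fin c × τ) ⊕ Fin n ⊕ Fin n) with hrr
  set k0 : ℕ := δ ^ rr with hk0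
  set c2 : ℝ := (r + t) + r * (c1 + C2 + 2) + C2 + n * G0 * qq with hc2
  have hc20 : 0 ≤ c2 := by positivity
  set c3 : ℝ := c1 + 2 * C * c + 2 * a0 * n * qq with hc3
  have hc30 : 0 ≤ c3 := by positivity
  refine ⟨k0, k0 * (k0 + c2 + (C1 + 1) * δ * rr) + c3 + 1, by positivity, ?_⟩
  intro A B Q hAQ hB1 hBQ
  refine ⟨16 * A ^ 2 + 6, fun g hg => ?_⟩
  have hlog := log_le_g0 A g hg
  have hg1 : 1 ≤ g := by omega
  have hg1' : (1 : ℝ) ≤ g := by exact_mod_cast hg1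
  set X : ℕ := g ^ Q with hX
  have hX1 : 1 ≤ X := Nat.one_le_pow _ _ hg1
  refine ⟨1 + (c + 1) * g ^ (Q - A) + X.factorial, fun h hh => ?_⟩
  intro ν k E hk hE p Z hZ hp x y s hxy hs hvl
  have hh1 : 1 ≤ h := by omega
  have hh1' : (1 : ℝ) ≤ h := by exact_mod_cast hh1
  have hX1' : (1 : ℝ) ≤ X := by exact_mod_cast hX1
  have hXr : (X : ℝ) = (g : ℝ) ^ Q := by rw [hX]; push_cast; rfl
  rw [← hXr]
  set H : ℝ := h * X with hH
  have hH1 : 1 ≤ H := one_le_mul_of_one_le_of_one_le hh1' hX1'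
  have hhH : (h : ℝ) ≤ H := le_mul_of_one_le_right (Nat.cast_nonneg _) hX1'
  have hXH : (X : ℝ) ≤ H := le_mul_of_one_le_left (Nat.cast_nonneg _) hh1'
  have hxX : ∀ i, x i ≤ X := fun i => by
    have := Finset.single_le_sum (f := x) (fun _ _ => Nat.zero_le _) (Finset.mem_univ i)
    omega
  have hexpC : Real.exp (C0 * h) ≤ Real.exp (C * h) := by
    refine Real.exp_le_exp.mpr ?_
    have := le_abs_self C0
    gcongr
  have hexph : (1 : ℝ) + (c + 1) * (g : ℝ) ^ (Q - A) ≤ Real.exp h := by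
    have h1 : ((1 + (c + 1) * g ^ (Q - A) : ℕ) : ℝ) ≤ h := by exact_mod_cast (by omega)
    push_cast at h1
    exact h1.trans (le_exp_self _)
  have hfac : (X.factorial : ℝ) ≤ Real.exp H := by
    have h1 : (X.factorial : ℝ) ≤ h := by exact_mod_cast (by omega)
    exact (h1.trans hhH).trans (le_exp_self _)
  have hT1 : ∀ (u : Ux ρ τ h (g ^ (Q - B)) (g ^ (Q - A))) (a : τ),
      (((u.2 a : ℕ) : ℝ)) ≤ (g : ℝ) ^ (Q - A) := by
    intro u a
    have := (u.2 a).2.le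
    exact_mod_cast this
  have hexp1 : (1 : ℝ) ≤ Real.exp (C * h) := Real.one_le_exp (by positivity)
  have hgQ : (0 : ℝ) ≤ (g : ℝ) ^ (Q - A) := by positivity
  -- the denominators
  choose d hd hdb hdI using fun i l => Pool.Agent.H54.BF.alg δ (Real.exp (C * h)) (k i l) hδ1 hexp1
    (algB_mono (hk i l) (by omega) hexpC)
  choose d' hd' hdb' hdI' using fun l a => Pool.Agent.H54.BF.alg δ (Real.exp (C * h)) (E l a) hδ1
    hexp1 (algB_mono (hE l a) (by omega) hexpC)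
  set Bh : ℝ := Real.exp (C * h) ^ δ with hBh
  have hBh0 : 0 ≤ Bh := by positivity
  set θ : (ρ × Fin c) ⊕ (Fin c × τ) ⊕ Fin n ⊕ Fin n → ℂ :=
    Sum.elim (fun v => (d v.1 v.2 : ℂ) * k v.1 v.2)
      (Sum.elim (fun v => (d' v.1 v.2 : ℂ) * E v.1 v.2)
        (Sum.elim (fun j => (b j : ℂ) * al j) (fun j => (b' j : ℂ) * (al j)⁻¹))) with hθ
  have R := repC Pool.Agent.H30.BF.rep _ δ θ hδ1
  set K1 : ℝ := c * (Real.exp (C * h) ^ c * (g : ℝ) ^ (Q - A) * (1 + Bh)) with hK1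
  have hK10 : 0 ≤ K1 := by positivity
  have hBh1 : 1 + Bh ≤ Real.exp ((C * δ + 1) * h) := by
    have e1 : Bh = Real.exp (C * δ * h) := by
      rw [hBh, ← Real.exp_nat_mul]; congr 1; ring
    rw [e1]
    exact one_add_exp_mul_le (by positivity) hh1'
  have hAc : Real.exp (C * h) ^ c = Real.exp (C * c * h) := by
    rw [← Real.exp_nat_mul]; congr 1; ring
  have hAc1 : (1 : ℝ) ≤ Real.exp (C * h) ^ c := one_le_pow₀ hexp1
  have hK2 : Real.exp (C * h) ^ c * (1 + (c + 1) * (g : ℝ) ^ (Q - A)) * (1 + Bh) ≤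
      Real.exp (C2 * h) := by
    calc Real.exp (C * h) ^ c * (1 + (c + 1) * (g : ℝ) ^ (Q - A)) * (1 + Bh)
        ≤ Real.exp (C * c * h) * Real.exp h * Real.exp ((C * δ + 1) * h) := by
          rw [hAc]
          gcongr
      _ = _ := by rw [← Real.exp_add, ← Real.exp_add, hC2]; congr 1; ring
  -- `km` and `ga`
  set D1 : ρ → ℤ := fun i => ∏ l, d i l with hD1
  set D2 : τ → ℤ := fun a => ∏ l, d' l a with hD2
  have hD1b : ∀ i, |(D1 i : ℝ)| ≤ Real.exp (C * h) ^ c := fun i => by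
    have := prodAll (d i) _ (hdb i)
    rwa [Fintype.card_fin] at this
  have hD2b : ∀ a, |(D2 a : ℝ)| ≤ Real.exp (C * h) ^ c := fun a => by
    have := prodAll (fun l => d' l a) _ (fun l => hdb' l a)
    rwa [Fintype.card_fin] at this
  have hkm : ∀ (u : Ux ρ τ h (g ^ (Q - B)) (g ^ (Q - A))) (i : ρ),
      MulB δ θ K1 ((D1 i : ℂ) * kmC ν k u i) := by
    intro u i
    have := lin_mulB R hδ1 (d i) (Real.exp (C * h)) Bh ((g : ℝ) ^ (Q - A)) hexp1 hBh0 (hdb i)
      (k i) (fun l => Sum.inl (i, l)) (fun l => rfl) (fun l => hdI i l)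
      (fun l => (u.2 (ν l) : ℕ)) (fun l => hT1 u (ν l))
    rwa [Fintype.card_fin] at this
  have hgaC : ∀ (u : Ux ρ τ h (g ^ (Q - B)) (g ^ (Q - A))) (a : τ),
      MulB δ θ (Real.exp (C2 * h)) ((D2 a : ℂ) * gaC ν E u a) := by
    intro u a
    have h1 := lin_mulB R hδ1 (fun l => d' l a) (Real.exp (C * h)) Bh ((g : ℝ) ^ (Q - A)) hexp1
      hBh0 (fun l => hdb' l a) (fun l => E l a) (fun l => Sum.inr (Sum.inl (l, a))) (fun l => rfl)
      (fun l => hdI' l a) (fun l => (u.2 (ν l) : ℕ)) (fun l => hT1 u (ν l))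
    rw [Fintype.card_fin] at h1
    have h2 : (D2 a : ℂ) * gaC ν E u a = ((D2 a * ((u.2 a : ℕ) : ℤ) : ℤ) : ℂ) +
        ((-1 : ℤ) : ℂ) * (((∏ l, d' l a : ℤ) : ℂ) * ∑ l, E l a * (((u.2 (ν l) : ℕ)) : ℂ)) := by
      unfold gaC
      rw [hD2]
      push_cast
      ring
    rw [h2]
    refine ((R.mulInt _).add R ((R.mulInt _).mul h1)).mono hδ1 (le_trans ?_ hK2)
    push_cast
    rw [abs_mul, abs_neg, abs_one, one_mul, Nat.abs_cast]
    have h3 := hD2b a
    have h4 := hT1 u a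
    have h5 : |(D2 a : ℝ)| * ((u.2 a : ℕ) : ℝ) ≤ Real.exp (C * h) ^ c * (g : ℝ) ^ (Q - A) := by
      gcongr
    exact aux1 (by positivity) hgQ hBh0 h5
  have hKD : ∀ i, |(D1 i : ℝ)| + K1 ≤ Real.exp (C2 * h) := by
    intro i
    refine le_trans ?_ hK2
    have h3 := hD1b i
    exact aux2 (by positivity) hgQ hBh0 h3
  -- the polynomial part
  have hG : ∀ (u : Ux ρ τ h (g ^ (Q - B)) (g ^ (Q - A))) (i : ρ),
      MulB δ θ (Real.exp ((c1 + C2 + 2) * H))
        (((Nat.lcmUpto h : ℂ) ^ (x i) * (D1 i : ℂ) ^ (x i)) *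
        (Gf 1 (-(kmC ν k u i)) (rp u i) (x i)).eval (s i : ℂ)) := by
    intro u i
    obtain ⟨si, hsi⟩ := Int.eq_ofNat_of_zero_le (hs i).1
    have hsb : (si : ℝ) ≤ (g : ℝ) ^ A * h := by
      have h1 := (hs i).2
      rw [hsi] at h1
      have h2 : si ≤ h * g ^ A := by exact_mod_cast h1
      have h3 : (si : ℝ) ≤ h * (g : ℝ) ^ A := by exact_mod_cast h2
      linarith
    set L0 : ℕ := g ^ (Q - B) - 1 with hL0
    have hL1 : 1 ≤ g ^ (Q - B) := Nat.one_le_pow _ _ hg1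
    have hL0' : (L0 : ℝ) + 1 = (g : ℝ) ^ (Q - B) := by
      have : L0 + 1 = g ^ (Q - B) := by omega
      exact_mod_cast this
    set D : ℝ := Real.exp (h * ((L0 + 1) * (1 + Real.log ((g : ℝ) ^ A + 2)))) with hD
    have h1 := gfa_mulB R hδ1 h (u.1 i).1 (u.1 i).2 (x i) si (u.1 i).1.2.le (kmC ν k u i) (D1 i)
      K1 D hK10 (Real.exp_pos _).le (hkm u i)
      (fun k' _ => Pool.Agent.H54.BF.bin h (u.1 i).1 (u.1 i).2 L0 k'
        ((g : ℝ) ^ A) (si : ℂ) hh1 (u.1 i).1.2.le (by have := (u.1 i).2.2; omega)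
        (by positivity) (by rw [Complex.norm_natCast]; exact hsb))
    have h2 : (((Nat.lcmUpto h : ℂ) ^ (x i) * (D1 i : ℂ) ^ (x i)) *
        (Gf 1 (-(kmC ν k u i)) (rp u i) (x i)).eval (s i : ℂ)) =
        (((Nat.lcmUpto h : ℂ) ^ (x i) * (D1 i : ℂ) ^ (x i)) *
        (Gf 1 (-(kmC ν k u i)) (RP h (u.1 i).1 (u.1 i).2) (x i)).eval (si : ℂ)) := by
      rw [hsi]
      unfold rp
      push_cast
      rfl
    rw [h2]
    refine h1.mono hδ1 ?_
    have hD' : D ≤ Real.exp H := by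
      rw [hD, hL0', hH, hXr]
      refine Real.exp_le_exp.mpr ?_
      have h1 : (g : ℝ) ^ (Q - B) * (1 + Real.log ((g : ℝ) ^ A + 2)) ≤ (g : ℝ) ^ Q := by
        calc (g : ℝ) ^ (Q - B) * (1 + Real.log ((g : ℝ) ^ A + 2)) ≤ (g : ℝ) ^ (Q - B) * g := by
              gcongr
          _ = (g : ℝ) ^ (Q - B + 1) := by rw [pow_succ]
          _ ≤ (g : ℝ) ^ Q := pow_le_pow_right₀ hg1' (by omega)
      gcongr
    have hxi : ((x i : ℕ) : ℝ) ≤ X := by exact_mod_cast hxX i
    have a1 : (Nat.lcmUpto h : ℝ) ^ (x i) ≤ Real.exp (c1 * H) := by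
      calc (Nat.lcmUpto h : ℝ) ^ (x i) ≤ Real.exp (c1 * h) ^ (x i) := by
            have := hν h
            gcongr
        _ = Real.exp ((x i : ℝ) * (c1 * h)) := by rw [← Real.exp_nat_mul]
        _ ≤ Real.exp (c1 * H) := by
            refine Real.exp_le_exp.mpr ?_
            rw [hH]
            have : (x i : ℝ) * (c1 * h) ≤ X * (c1 * h) := by gcongr
            linarith
    have a2 : ((x i).factorial : ℝ) ≤ Real.exp H := by
      have : ((x i).factorial : ℝ) ≤ X.factorial := by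
        exact_mod_cast Nat.factorial_le (hxX i)
      linarith
    have a3 : (|(D1 i : ℝ)| + K1) ^ (x i) ≤ Real.exp (C2 * H) := by
      calc (|(D1 i : ℝ)| + K1) ^ (x i) ≤ Real.exp (C2 * h) ^ (x i) := by
            have := hKD i
            gcongr
        _ = Real.exp ((x i : ℝ) * (C2 * h)) := by rw [← Real.exp_nat_mul]
        _ ≤ Real.exp (C2 * H) := by
            refine Real.exp_le_exp.mpr ?_
            rw [hH]
            have : (x i : ℝ) * (C2 * h) ≤ X * (C2 * h) := by gcongr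
            linarith
    calc (Nat.lcmUpto h : ℝ) ^ (x i) * ((x i).factorial * (|(D1 i : ℝ)| + K1) ^ (x i) * D)
        ≤ Real.exp (c1 * H) * (Real.exp H * Real.exp (C2 * H) * Real.exp H) := by gcongr
      _ = _ := by
          rw [← Real.exp_add, ← Real.exp_add, ← Real.exp_add]; congr 1; ring
  -- the exponentials
  set N : ℕ := qq * (h * X) with hN
  have hNr : (N : ℝ) = qq * H := by rw [hN, hH]; push_cast; ring
  set e : Ux ρ τ h (g ^ (Q - B)) (g ^ (Q - A)) → Fin n → ℤ :=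
    fun u j => ∑ i, ∑ a, s i * (((u.2 a : ℕ) : ℤ) * q j i a) with he
  have hexp : ∀ u : Ux ρ τ h (g ^ (Q - B)) (g ^ (Q - A)),
      Complex.exp (∑ i, (s i : ℂ) * th lam q u i) = ∏ j, al j ^ (e u j) := by
    intro u
    exact exp_split lam q s fun a => (u.2 a : ℕ)
  have heb : ∀ u j, |e u j| ≤ (N : ℤ) := by
    intro u j
    have h1 : |e u j| ≤ ∑ i, ∑ a, (h * X : ℤ) * ((q j i a).natAbs : ℤ) := by
      rw [he]
      refine (Finset.abs_sum_le_sum_abs _ _).trans (Finset.sum_le_sum fun i _ => ?_)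
      refine (Finset.abs_sum_le_sum_abs _ _).trans (Finset.sum_le_sum fun a _ => ?_)
      rw [abs_mul, abs_mul, Nat.abs_cast, abs_of_nonneg (hs i).1]
      have h2 := (hs i).2
      have h3 : ((u.2 a : ℕ) : ℤ) ≤ (g : ℤ) ^ (Q - A) := by
        have := (u.2 a).2.le
        exact_mod_cast this
      have h4 : ((X : ℕ) : ℤ) = (g : ℤ) ^ A * (g : ℤ) ^ (Q - A) := by
        rw [hX, ← pow_add]; push_cast; congr 1; omega
      rw [Int.natCast_natAbs, h4]
      calc s i * (((u.2 a : ℕ) : ℤ) * |q j i a|)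
          ≤ (h * (g : ℤ) ^ A) * ((g : ℤ) ^ (Q - A) * |q j i a|) := by
            gcongr
        _ = _ := by ring
    refine h1.trans ?_
    have h5 : ∑ i, ∑ a, (q j i a).natAbs ≤ qq := by
      rw [hqq]
      exact Finset.single_le_sum (f := fun j => ∑ i, ∑ a, (q j i a).natAbs)
        (fun _ _ => Nat.zero_le _) (Finset.mem_univ j)
    have h6 : ∑ i, ∑ a, (h * X : ℤ) * ((q j i a).natAbs : ℤ) =
        (h * X : ℤ) * ((∑ i, ∑ a, (q j i a).natAbs : ℕ) : ℤ) := by
      push_cast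
      rw [Finset.mul_sum]
      refine Finset.sum_congr rfl fun i _ => ?_
      rw [Finset.mul_sum]
    rw [h6, hN]
    push_cast
    have h7 : ((∑ i, ∑ a, (q j i a).natAbs : ℕ) : ℤ) ≤ qq := by exact_mod_cast h5
    push_cast at h7
    rw [mul_comm (qq : ℤ)]
    exact mul_le_mul_of_nonneg_left h7 (by positivity)
  have hE1 : ∀ u : Ux ρ τ h (g ^ (Q - B)) (g ^ (Q - A)), MulB δ θ (Real.exp (n * G0 * qq * H))
      (∏ j, (((b j : ℂ) * b' j) ^ N * al j ^ (e u j))) := by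
    intro u
    refine (MulB.prod univ (fun j _ =>
      lif_factor R hδ1 ha00 hB'0 (i := Sum.inr (Sum.inr (Sum.inl j)))
        (i' := Sum.inr (Sum.inr (Sum.inr j))) (hb_int j) (hb_int' j) (x := al j) (hb_b j)
        (hb_b' j) rfl rfl N (e u j) (heb u j))).mono hδ1 ?_
    rw [Finset.prod_const, Finset.card_univ, Fintype.card_fin]
    have h3 : Real.exp ((2 * a0) * N) * (1 + B') ^ N = G0 ^ N := by
      rw [hG0, mul_pow, ← Real.exp_nat_mul]; congr 2; ring
    rw [h3]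
    calc (G0 ^ N) ^ n ≤ ((Real.exp G0) ^ N) ^ n := by
          have := le_exp_self G0
          gcongr
      _ = _ := by
          rw [← Real.exp_nat_mul, ← Real.exp_nat_mul, hNr]; congr 1; ring
  have hga2 : ∀ u : Ux ρ τ h (g ^ (Q - B)) (g ^ (Q - A)), MulB δ θ (Real.exp (C2 * H))
      (∏ a, ((D2 a : ℂ) * gaC ν E u a) ^ y a) := by
    intro u
    refine (MulB.prod univ (fun a _ => (hgaC u a).pow (y a))).mono hδ1 ?_
    rw [Finset.prod_pow_eq_pow_sum, ← Real.exp_nat_mul]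
    refine Real.exp_le_exp.mpr ?_
    have h1 : ((∑ a, y a : ℕ) : ℝ) ≤ X := by exact_mod_cast (by omega)
    rw [hH]
    have : ((∑ a, y a : ℕ) : ℝ) * (C2 * h) ≤ X * (C2 * h) := by gcongr
    linarith
  have hG2 : ∀ u : Ux ρ τ h (g ^ (Q - B)) (g ^ (Q - A)),
      MulB δ θ (Real.exp (r * (c1 + C2 + 2) * H))
      (∏ i, (((Nat.lcmUpto h : ℂ) ^ (x i) * (D1 i : ℂ) ^ (x i)) *
        (Gf 1 (-(kmC ν k u i)) (rp u i) (x i)).eval (s i : ℂ))) := by
    intro u
    refine (MulB.prod univ (fun i _ => hG u i)).mono hδ1 ?_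
    rw [Finset.prod_const, Finset.card_univ, ← hr, ← Real.exp_nat_mul]
    refine Real.exp_le_exp.mpr ?_
    exact le_of_eq (by ring)
  -- the representation
  set den : ℤ := (Nat.lcmUpto h : ℤ) ^ (∑ i, x i) * (∏ i, D1 i ^ (x i)) * (∏ a, D2 a ^ (y a)) *
    (∏ j, (b j * b' j)) ^ N with hden
  have hden0 : den ≠ 0 := by
    refine mul_ne_zero (mul_ne_zero (mul_ne_zero (pow_ne_zero _ ?_) ?_) ?_) (pow_ne_zero _ ?_)
    · exact_mod_cast Nat.lcmUpto_ne_zero h
    · exact Finset.prod_ne_zero_iff.mpr fun i _ => pow_ne_zero _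
        (Finset.prod_ne_zero_iff.mpr fun l _ => hd i l)
    · exact Finset.prod_ne_zero_iff.mpr fun a _ => pow_ne_zero _
        (Finset.prod_ne_zero_iff.mpr fun l _ => hd' l a)
    · exact Finset.prod_ne_zero_iff.mpr fun j _ => mul_ne_zero (hb_ne j) (hb_ne' j)
  set F : ℝ := Real.exp (r * (c1 + C2 + 2) * H) * (Real.exp (C2 * H) *
    Real.exp (n * G0 * qq * H)) with hF
  have hrep : Rep δ θ (∑ u, |(p u : ℝ)| * F) (∑ u, (p u : ℂ) *
      ((∏ i, (((Nat.lcmUpto h : ℂ) ^ (x i) * (D1 i : ℂ) ^ (x i)) *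
        (Gf 1 (-(kmC ν k u i)) (rp u i) (x i)).eval (s i : ℂ))) *
      ((∏ a, ((D2 a : ℂ) * gaC ν E u a) ^ y a) *
        (∏ j, (((b j : ℂ) * b' j) ^ N * al j ^ (e u j)))))) := by
    apply R.sum
    intro u _
    apply R.smul
    have h1 : Rep δ θ 1 1 := by simpa using R.int 1
    have h2 := ((hG2 u).mul ((hga2 u).mul (hE1 u))) 1 1 h1
    rw [mul_one, mul_one] at h2
    exact h2
  have hval : (∑ u, (p u : ℂ) *
      ((∏ i, (((Nat.lcmUpto h : ℂ) ^ (x i) * (D1 i : ℂ) ^ (x i)) *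
        (Gf 1 (-(kmC ν k u i)) (rp u i) (x i)).eval (s i : ℂ))) *
      ((∏ a, ((D2 a : ℂ) * gaC ν E u a) ^ y a) *
        (∏ j, (((b j : ℂ) * b' j) ^ N * al j ^ (e u j)))))) =
      (den : ℂ) * vlC lam q ν k E p x y s := by
    unfold vlC
    rw [Finset.mul_sum]
    refine Finset.sum_congr rfl fun u _ => ?_
    rw [hexp, hden]
    push_cast
    rw [Finset.prod_mul_distrib, Finset.prod_mul_distrib, Finset.prod_mul_distrib,
      Finset.prod_pow_eq_pow_sum, ← Finset.prod_pow]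
    simp only [mul_pow, Finset.prod_mul_distrib]
    ring
  rw [hval] at hrep
  have hF1 : 1 ≤ F := by
    have f1 : (1 : ℝ) ≤ Real.exp (r * (c1 + C2 + 2) * H) := Real.one_le_exp (by positivity)
    have f2 : (1 : ℝ) ≤ Real.exp (C2 * H) := Real.one_le_exp (by positivity)
    have f3 : (1 : ℝ) ≤ Real.exp (n * G0 * qq * H) := Real.one_le_exp (by positivity)
    exact one_le_mul_of_one_le_of_one_le f1 (one_le_mul_of_one_le_of_one_le f2 f3)
  set Y : ℝ := Z * Real.exp (c2 * H) with hY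
  have hexp2 : (1 : ℝ) ≤ Real.exp (c2 * H) := Real.one_le_exp (by positivity)
  have hY1 : 1 ≤ Y := one_le_mul_of_one_le_of_one_le hZ hexp2
  have hcard : (Fintype.card (Ux ρ τ h (g ^ (Q - B)) (g ^ (Q - A))) : ℝ) ≤
      Real.exp ((r + t) * H) := by
    have h1 : (Fintype.card (Ux ρ τ h (g ^ (Q - B)) (g ^ (Q - A))) : ℝ) =
        ((h : ℝ) * (g : ℝ) ^ (Q - B)) ^ r * ((g : ℝ) ^ (Q - A)) ^ t := by
      simp [Ux, hr, ht]
    have h2 : (g : ℝ) ^ (Q - B) ≤ X := by
      rw [hXr]; exact pow_le_pow_right₀ hg1' (by omega)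
    have h3 : (g : ℝ) ^ (Q - A) ≤ X := by
      rw [hXr]; exact pow_le_pow_right₀ hg1' (by omega)
    have h4 : (h : ℝ) * (g : ℝ) ^ (Q - B) ≤ Real.exp H := by
      calc (h : ℝ) * (g : ℝ) ^ (Q - B) ≤ h * X := by gcongr
        _ ≤ Real.exp H := le_exp_self _
    have h5 : (g : ℝ) ^ (Q - A) ≤ Real.exp H := (h3.trans hXH).trans (le_exp_self _)
    rw [h1]
    calc ((h : ℝ) * (g : ℝ) ^ (Q - B)) ^ r * ((g : ℝ) ^ (Q - A)) ^ t
        ≤ Real.exp H ^ r * Real.exp H ^ t := by gcongr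
      _ = _ := by
          rw [← Real.exp_nat_mul, ← Real.exp_nat_mul, ← Real.exp_add]
          congr 1; ring
  have hYb : ∑ u, |(p u : ℝ)| * F ≤ Y := by
    calc ∑ u, |(p u : ℝ)| * F ≤ ∑ _u : Ux ρ τ h (g ^ (Q - B)) (g ^ (Q - A)), Z * F := by
          refine Finset.sum_le_sum fun u _ => ?_
          have h1 := hp u
          gcongr
      _ = (Fintype.card (Ux ρ τ h (g ^ (Q - B)) (g ^ (Q - A))) : ℝ) * (Z * F) := by
          rw [Finset.sum_const, Finset.card_univ, nsmul_eq_mul]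
      _ ≤ Real.exp ((r + t) * H) * (Z * F) := by gcongr
      _ = Y := by
          have e1 : c2 * H = (r + t) * H + (r * (c1 + C2 + 2) * H + (C2 * H +
              n * G0 * qq * H)) := by
            rw [hc2]; ring
          rw [hY, hF, e1, Real.exp_add, Real.exp_add, Real.exp_add]; ring
  -- Liouville
  have hθI : ∀ i, IntB δ (Real.exp (C1 * h)) (θ i) := by
    have e1 : Bh ≤ Real.exp (C1 * h) := by
      rw [hBh, ← Real.exp_nat_mul]
      exact Real.exp_le_exp.mpr (aux3 (by positivity) ha00 hh1')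
    have e2 : B' ≤ Real.exp (C1 * h) := by
      rw [hB', ← Real.exp_nat_mul]
      exact Real.exp_le_exp.mpr (aux4 (by positivity) hC0 ha00 hh1')
    rintro (v | v | j | j)
    · exact intB_mono (hdI v.1 v.2) e1
    · exact intB_mono (hdI' v.1 v.2) e1
    · exact intB_mono (hb_int j) e2
    · exact intB_mono (hb_int' j) e2
  have hx0 : (den : ℂ) * vlC lam q ν k E p x y s ≠ 0 := mul_ne_zero (by exact_mod_cast hden0) hvl
  have hL := Pool.Agent.H36.BF.lio _ δ θ (fun _ => Real.exp (C1 * h)) _ _ hδ1 hY1 hθI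
    (rep_mono hrep hYb) hx0
  rw [Finset.prod_const, Finset.card_univ, ← hrr, norm_mul] at hL
  refine hL.trans ?_
  have b0 : ‖(den : ℂ)‖ ≤ Real.exp (c3 * H) := by
    rw [Complex.norm_intCast, hden]
    push_cast
    rw [abs_mul, abs_mul, abs_mul, abs_pow, abs_pow, Finset.abs_prod, Finset.abs_prod,
      Finset.abs_prod, Nat.abs_cast]
    have q1 : (Nat.lcmUpto h : ℝ) ^ (∑ i, x i) ≤ Real.exp (c1 * H) := by
      calc (Nat.lcmUpto h : ℝ) ^ (∑ i, x i) ≤ Real.exp (c1 * h) ^ (∑ i, x i) := by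
            have := hν h
            gcongr
        _ = Real.exp ((∑ i, x i : ℕ) * (c1 * h)) := by rw [← Real.exp_nat_mul]
        _ ≤ Real.exp (c1 * H) := by
            refine Real.exp_le_exp.mpr ?_
            have h1 : ((∑ i, x i : ℕ) : ℝ) ≤ X := by exact_mod_cast (by omega)
            rw [hH]
            have : ((∑ i, x i : ℕ) : ℝ) * (c1 * h) ≤ X * (c1 * h) := by gcongr
            linarith
    have q2 : ∏ i, |(D1 i : ℝ) ^ (x i)| ≤ Real.exp (C * c * H) := by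
      calc ∏ i, |(D1 i : ℝ) ^ (x i)| ≤ ∏ i, Real.exp (C * c * h) ^ (x i) := by
            refine Finset.prod_le_prod (fun _ _ => abs_nonneg _) fun i _ => ?_
            rw [abs_pow, ← hAc]
            have := hD1b i
            gcongr
        _ = Real.exp ((∑ i, x i : ℕ) * (C * c * h)) := by
            rw [Finset.prod_pow_eq_pow_sum, ← Real.exp_nat_mul]
        _ ≤ _ := by
            refine Real.exp_le_exp.mpr ?_
            have h1 : ((∑ i, x i : ℕ) : ℝ) ≤ X := by exact_mod_cast (by omega)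
            rw [hH]
            have : ((∑ i, x i : ℕ) : ℝ) * (C * c * h) ≤ X * (C * c * h) := by gcongr
            linarith
    have q3 : ∏ a, |(D2 a : ℝ) ^ (y a)| ≤ Real.exp (C * c * H) := by
      calc ∏ a, |(D2 a : ℝ) ^ (y a)| ≤ ∏ a, Real.exp (C * c * h) ^ (y a) := by
            refine Finset.prod_le_prod (fun _ _ => abs_nonneg _) fun a _ => ?_
            rw [abs_pow, ← hAc]
            have := hD2b a
            gcongr
        _ = Real.exp ((∑ a, y a : ℕ) * (C * c * h)) := by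
            rw [Finset.prod_pow_eq_pow_sum, ← Real.exp_nat_mul]
        _ ≤ _ := by
            refine Real.exp_le_exp.mpr ?_
            have h1 : ((∑ a, y a : ℕ) : ℝ) ≤ X := by exact_mod_cast (by omega)
            rw [hH]
            have : ((∑ a, y a : ℕ) : ℝ) * (C * c * h) ≤ X * (C * c * h) := by gcongr
            linarith
    have q4 : (∏ j, |(b j : ℝ) * b' j|) ^ N ≤ Real.exp (2 * a0 * n * qq * H) := by
      calc (∏ j, |(b j : ℝ) * b' j|) ^ N ≤ (∏ _j : Fin n, Real.exp (2 * a0)) ^ N := by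
            gcongr with j _
            rw [abs_mul]
            calc |(b j : ℝ)| * |(b' j : ℝ)| ≤ Real.exp a0 * Real.exp a0 := by
                  have := hb_b j
                  have := hb_b' j
                  gcongr
              _ = _ := by rw [← Real.exp_add]; congr 1; ring
        _ = _ := by
            rw [Finset.prod_const, Finset.card_univ, Fintype.card_fin, ← Real.exp_nat_mul,
              ← Real.exp_nat_mul, hNr]
            congr 1; ring
    calc (Nat.lcmUpto h : ℝ) ^ (∑ i, x i) * (∏ i, |(D1 i : ℝ) ^ (x i)|) *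
          (∏ a, |(D2 a : ℝ) ^ (y a)|) * (∏ j, |(b j : ℝ) * b' j|) ^ N
        ≤ Real.exp (c1 * H) * Real.exp (C * c * H) * Real.exp (C * c * H) *
          Real.exp (2 * a0 * n * qq * H) := by
          have z2 : 0 ≤ ∏ i, |(D1 i : ℝ) ^ (x i)| := Finset.prod_nonneg fun _ _ => abs_nonneg _
          have z3 : 0 ≤ ∏ a, |(D2 a : ℝ) ^ (y a)| := Finset.prod_nonneg fun _ _ => abs_nonneg _
          gcongr
      _ = _ := by
          rw [← Real.exp_add, ← Real.exp_add, ← Real.exp_add, hc3]; congr 1; ring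
  have b1 : ((δ : ℝ) ^ rr) ≤ Real.exp (k0 * H) := by
    have e1 : ((δ : ℝ) ^ rr) = (k0 : ℝ) := by rw [hk0]; push_cast; rfl
    rw [e1]
    have : (k0 : ℝ) ≤ k0 * H := le_mul_of_one_le_right (Nat.cast_nonneg _) hH1
    exact this.trans (le_exp_self _)
  have b3 : ((1 + Real.exp (C1 * h)) ^ δ) ^ rr ≤ Real.exp ((C1 + 1) * δ * rr * H) := by
    calc ((1 + Real.exp (C1 * h)) ^ δ) ^ rr ≤ (Real.exp ((C1 + 1) * h) ^ δ) ^ rr := by
          have := one_add_exp_mul_le hC10 hh1'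
          gcongr
      _ = Real.exp ((C1 + 1) * δ * rr * h) := by
        rw [← Real.exp_nat_mul, ← Real.exp_nat_mul]; congr 1; ring
      _ ≤ _ := by
        refine Real.exp_le_exp.mpr ?_
        gcongr
  calc ((δ : ℝ) ^ rr * Y * ((1 + Real.exp (C1 * h)) ^ δ) ^ rr) ^ (δ ^ rr) *
        (‖(den : ℂ)‖ * ‖vlC lam q ν k E p x y s‖)
      ≤ (Real.exp (k0 * H) * Y * Real.exp ((C1 + 1) * δ * rr * H)) ^ k0 *
        (Real.exp (c3 * H) * ‖vlC lam q ν k E p x y s‖) := by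
        rw [← hk0]; gcongr
    _ = Z ^ k0 * Real.exp ((k0 * (k0 + c2 + (C1 + 1) * δ * rr) + c3) * H) *
        ‖vlC lam q ν k E p x y s‖ := by
        have e1 : Real.exp (k0 * H) * Y * Real.exp ((C1 + 1) * δ * rr * H) =
            Z * Real.exp ((k0 + c2 + (C1 + 1) * δ * rr) * H) := by
          rw [hY]
          have : (k0 + c2 + (C1 + 1) * δ * rr) * H = k0 * H + c2 * H +
            (C1 + 1) * δ * rr * H := by ring
          rw [this, Real.exp_add, Real.exp_add]; ring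
        rw [e1, mul_pow, ← Real.exp_nat_mul, add_mul _ c3 H, Real.exp_add (_ * H)]
        rw [← mul_assoc (k0 : ℝ) _ H]
        ring
    _ ≤ _ := by
        have h1 : Real.exp ((k0 * (k0 + c2 + (C1 + 1) * δ * rr) + c3) * H) ≤
            Real.exp ((k0 * (k0 + c2 + (C1 + 1) * δ * rr) + c3 + 1) * H) := by
          refine Real.exp_le_exp.mpr (mul_le_mul_of_nonneg_right ?_ (by linarith))
          linarith
        gcongr

end Pool.Agent.H46.HR
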