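import Pool.Agent.H46.HR.WT

open MvPolynomial Module Asymptotics Filter Topology

namespace Pool.Agent.H46.HR

open Pool.Agent.H72.HR

noncomputable section

/-! ### leading terms -/

/-- `φ` has leading term `c t^d` (possibly `c = 0`) -/
def Lead (φ : ℂ → ℂ) (c : ℂ) (d : ℕ) : Prop :=
  (fun t : ℂ => φ t - c * t ^ d) =O[𝓝 0] (fun t : ℂ => t ^ (d + 1))

theorem pow_isBigO_pow {a b : ℕ} (h : a ≤ b) :
    (fun t : ℂ => t ^ b) =O[𝓝 0] (fun t : ℂ => t ^ a) := by
  obtain ⟨c, rfl⟩ := Nat.exists_eq_add_of_le h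
  have hc : Continuous (fun t : ℂ => t ^ c) := by fun_prop
  have h1 : (fun t : ℂ => t ^ c) =O[𝓝 0] (fun _ : ℂ => (1 : ℂ)) :=
    (hc.continuousAt (x := 0)).norm.isBoundedUnder_le.isBigO_one ℂ
  have h2 := (isBigO_refl (fun t : ℂ => t ^ a) (𝓝 0)).mul h1
  refine (h2.congr_left fun t => ?_).congr_right fun t => ?_
  · rw [pow_add]
  · rw [mul_one]

theorem const_mul_pow_isBigO (c : ℂ) (d : ℕ) :
    (fun t : ℂ => c * t ^ d) =O[𝓝 0] (fun t : ℂ => t ^ d) :=
  (isBigO_refl _ _).const_mul_left c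

theorem Lead.isBigO {φ : ℂ → ℂ} {c : ℂ} {d : ℕ} (h : Lead φ c d) :
    φ =O[𝓝 0] (fun t : ℂ => t ^ d) := by
  have h1 := (h.trans (pow_isBigO_pow (Nat.le_succ d))).add (const_mul_pow_isBigO c d)
  refine h1.congr_left fun t => ?_
  ring

theorem Lead.mul {φ ψ : ℂ → ℂ} {c c' : ℂ} {d d' : ℕ} (h : Lead φ c d) (h' : Lead ψ c' d') :
    Lead (fun t => φ t * ψ t) (c * c') (d + d') := by
  have h1 := IsBigO.mul h h'.isBigO
  have h2 := (const_mul_pow_isBigO c d).mul h'
  unfold Lead
  have h3 : (fun t : ℂ => t ^ (d + 1) * t ^ d') = fun t : ℂ => t ^ (d + d' + 1) := by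
    funext t; ring
  have h4 : (fun t : ℂ => t ^ d * t ^ (d' + 1)) = fun t : ℂ => t ^ (d + d' + 1) := by
    funext t; ring
  rw [h3] at h1
  rw [h4] at h2
  refine (h1.add h2).congr_left fun t => ?_
  ring

theorem Lead.one : Lead (fun _ => 1) 1 0 := by
  unfold Lead
  have : (fun t : ℂ => (1 : ℂ) - 1 * t ^ 0) = fun _ => 0 := by funext t; simp
  rw [this]
  exact isBigO_zero _ _

theorem Lead.pow {φ : ℂ → ℂ} {c : ℂ} {d : ℕ} (h : Lead φ c d) (n : ℕ) :
    Lead (fun t => φ t ^ n) (c ^ n) (d * n) := by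
  induction n with
  | zero => simpa using Lead.one
  | succ n ih =>
    have := ih.mul h
    simpa [pow_succ, Nat.mul_succ] using this

theorem Lead.prod {J : Type} (s : Finset J) (φ : J → ℂ → ℂ) (c : J → ℂ) (d : J → ℕ)
    (h : ∀ j, Lead (φ j) (c j) (d j)) :
    Lead (fun t => ∏ j ∈ s, φ j t) (∏ j ∈ s, c j) (∑ j ∈ s, d j) := by
  classical
  induction s using Finset.induction_on with
  | empty => simpa using Lead.one
  | insert a s ha ih =>
    have := (h a).mul ih
    simpa [Finset.prod_insert ha, Finset.sum_insert ha] using this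

/-- a monomial which is `O(t^(d+1))` vanishes -/
theorem coeff_eq_zero_of_isBigO {K : ℂ} {d : ℕ}
    (h : (fun t : ℂ => K * t ^ d) =O[𝓝 0] (fun t : ℂ => t ^ (d + 1))) : K = 0 := by
  by_contra hK
  obtain ⟨C, hC⟩ := h.bound
  obtain ⟨r, hr, hb⟩ := Metric.eventually_nhds_iff.1 hC
  have hKpos : 0 < ‖K‖ := norm_pos_iff.2 hK
  have hC0 : 0 < |C| + 1 := by positivity
  set s : ℝ := min (r / 2) (‖K‖ / (2 * (|C| + 1))) with hs
  have hspos : 0 < s := lt_min (by positivity) (by positivity)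
  have hsr : s < r := lt_of_le_of_lt (min_le_left _ _) (by linarith)
  have h1 := @hb (s : ℂ) (by simpa [abs_of_pos hspos] using hsr)
  rw [norm_mul, norm_pow, norm_pow, Complex.norm_real, Real.norm_of_nonneg hspos.le, pow_succ]
    at h1
  have h2 : 0 < s ^ d := pow_pos hspos d
  have h3 : ‖K‖ ≤ C * s := by
    have : ‖K‖ * s ^ d ≤ (C * s) * s ^ d := by linarith [h1]
    exact le_of_mul_le_mul_right this h2
  have h4 : C * s ≤ (|C| + 1) * s := by
    have := le_abs_self C
    nlinarith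
  have h5 : (|C| + 1) * s ≤ ‖K‖ / 2 := by
    have : s ≤ ‖K‖ / (2 * (|C| + 1)) := min_le_right _ _
    calc (|C| + 1) * s ≤ (|C| + 1) * (‖K‖ / (2 * (|C| + 1))) := by gcongr
      _ = ‖K‖ / 2 := by field_simp
  linarith

/-! ### the truncated logarithm -/

/-- truncated logarithm as a polynomial -/
def lgP (N : ℕ) : Polynomial ℂ :=
  ∑ j ∈ Finset.range (N + 1), Polynomial.C ((-1) ^ (j + 1) / (j : ℂ)) * (Polynomial.X - 1) ^ j

theorem lgP_eval (N : ℕ) (z : ℂ) : (lgP N).eval z = Complex.logTaylor (N + 1) (z - 1) := by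
  unfold lgP Complex.logTaylor
  rw [Polynomial.eval_finsetSum]
  refine Finset.sum_congr rfl fun j _ => ?_
  simp only [Polynomial.eval_mul, Polynomial.eval_C, Polynomial.eval_pow, Polynomial.eval_sub,
    Polynomial.eval_X, Polynomial.eval_one]
  ring

theorem lgP_isBigO (N : ℕ) :
    (fun z : ℂ => (lgP N).eval (Complex.exp z) - z) =O[𝓝 0] (fun z : ℂ => z ^ (N + 1)) := by
  have h1 := Complex.log_sub_logTaylor_isBigO N
  have hexp : (fun z : ℂ => Complex.exp z - 1) =O[𝓝 0] (fun z : ℂ => z) := by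
    have := (Complex.hasDerivAt_exp 0).isBigO_sub
    simpa using this
  have ht : Tendsto (fun z : ℂ => Complex.exp z - 1) (𝓝 0) (𝓝 0) := by
    have hc : Continuous (fun z : ℂ => Complex.exp z - 1) := by fun_prop
    have := hc.tendsto 0
    simpa using this
  have h2 := (h1.comp_tendsto ht).trans (hexp.pow (N + 1))
  refine (h2.neg_left).congr' ?_ EventuallyEq.rfl
  have hev : ∀ᶠ z : ℂ in 𝓝 0, ‖z‖ < 1 := by
    have := Metric.ball_mem_nhds (0 : ℂ) one_pos
    filter_upwards [this] with z hz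
    simpa using hz
  filter_upwards [hev] with z hz
  have hlog : Complex.log (Complex.exp z) = z := by
    refine Complex.log_exp ?_ ?_
    · have h3 : |z.im| ≤ ‖z‖ := Complex.abs_im_le_norm z
      have h4 := (abs_le.1 (h3.trans hz.le)).1
      linarith [Real.pi_gt_three]
    · have h3 : |z.im| ≤ ‖z‖ := Complex.abs_im_le_norm z
      have h4 := (abs_le.1 (h3.trans hz.le)).2
      linarith [Real.pi_gt_three]
  simp only [Function.comp_apply]
  rw [lgP_eval, add_sub_cancel, hlog]
  ring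

section
variable {σ : Type} [Fintype σ] [DecidableEq σ]

/-- local coordinate at `g` -/
def zp (κ : σ → Bool) (N : ℕ) (g : σ → ℂ) (i : σ) : MvPolynomial σ ℂ :=
  if κ i then Polynomial.aeval (C (Complex.exp (-g i)) * X i) (lgP N) else X i - C (g i)

omit [Fintype σ] [DecidableEq σ] in
theorem zp_isBigO (κ : σ → Bool) (S : ℕ) (g w v : σ → ℂ) (i : σ) :
    (fun t : ℂ => fc κ S g w v (zp κ (S + 1) g i) t - (t * w i + t ^ (S + 1) * v i)) =O[𝓝 0]
      (fun t : ℂ => t ^ (S + 2)) := by
  by_cases h : κ i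
  · have e : (fun t : ℂ => fc κ S g w v (zp κ (S + 1) g i) t - (t * w i + t ^ (S + 1) * v i)) =
        fun t => (lgP (S + 1)).eval (Complex.exp (t * w i + t ^ (S + 1) * v i)) -
          (t * w i + t ^ (S + 1) * v i) := by
      funext t
      congr 1
      simp only [fc, zp, h, if_true]
      rw [Polynomial.aeval_def, Polynomial.eval₂_eq_sum_range, map_sum,
        Polynomial.eval_eq_sum_range]
      refine Finset.sum_congr rfl fun n _ => ?_
      simp only [map_mul, map_pow, eval_C, eval_X, MvPolynomial.algebraMap_eq]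
      congr 2
      simp only [pt, h, if_true, cv, Pi.add_apply, Pi.smul_apply, smul_eq_mul]
      rw [← Complex.exp_add]
      congr 1
      ring
    rw [e]
    have ht : Tendsto (fun t : ℂ => t * w i + t ^ (S + 1) * v i) (𝓝 0) (𝓝 0) := by
      have hc : Continuous (fun t : ℂ => t * w i + t ^ (S + 1) * v i) := by fun_prop
      have := hc.tendsto 0
      simpa using this
    have h1 := (lgP_isBigO (S + 1)).comp_tendsto ht
    have h2 : (fun t : ℂ => t * w i + t ^ (S + 1) * v i) =O[𝓝 0] (fun t : ℂ => t) := by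
      have ha : (fun t : ℂ => t * w i) =O[𝓝 0] (fun t : ℂ => t) := by
        refine ((const_mul_pow_isBigO (w i) 1).congr_left fun t => ?_).congr_right fun t => ?_
        · ring
        · ring
      have hb : (fun t : ℂ => t ^ (S + 1) * v i) =O[𝓝 0] (fun t : ℂ => t) := by
        refine (((const_mul_pow_isBigO (v i) (S + 1)).trans
          (pow_isBigO_pow (Nat.le_add_left 1 S))).congr_left fun t => ?_).congr_right fun t => ?_
        · ring
        · ring
      exact ha.add hb
    exact h1.trans (h2.pow (S + 2))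
  · have e : (fun t : ℂ => fc κ S g w v (zp κ (S + 1) g i) t - (t * w i + t ^ (S + 1) * v i)) =
        fun _ => 0 := by
      funext t
      simp only [fc, zp, h, if_false, map_sub, eval_X, eval_C, pt, cv, Pi.add_apply,
        Pi.smul_apply, smul_eq_mul, Bool.false_eq_true]
      ring
    rw [e]
    exact isBigO_zero _ _

/-- the linear form with coefficients `a` in the local coordinates -/
def up (κ : σ → Bool) (N : ℕ) (g : σ → ℂ) (a : σ → ℂ) : MvPolynomial σ ℂ :=
  ∑ i, C (a i) * zp κ N g i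

omit [DecidableEq σ] in
theorem up_isBigO (κ : σ → Bool) (S : ℕ) (g w v : σ → ℂ) (a : σ → ℂ) :
    (fun t : ℂ => fc κ S g w v (up κ (S + 1) g a) t -
      (t * ∑ i, a i * w i + t ^ (S + 1) * ∑ i, a i * v i)) =O[𝓝 0]
      (fun t : ℂ => t ^ (S + 2)) := by
  have h : (fun t : ℂ => ∑ i, a i * (fc κ S g w v (zp κ (S + 1) g i) t -
      (t * w i + t ^ (S + 1) * v i))) =O[𝓝 0] (fun t : ℂ => t ^ (S + 2)) := by
    have h0 := IsBigO.sum (s := Finset.univ) (l := 𝓝 (0 : ℂ)) (g := fun t : ℂ => t ^ (S + 2))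
      (fun i (_ : i ∈ Finset.univ) => (zp_isBigO κ S g w v i).const_mul_left (a i))
    refine h0.congr_left fun t => ?_
    rw [Finset.sum_apply]
  refine h.congr_left fun t => ?_
  have e : fc κ S g w v (up κ (S + 1) g a) t =
      ∑ i, a i * fc κ S g w v (zp κ (S + 1) g i) t := by
    simp only [fc, up, map_sum, map_mul, eval_C]
  rw [e, Finset.mul_sum, Finset.mul_sum, ← Finset.sum_add_distrib, ← Finset.sum_sub_distrib]
  refine Finset.sum_congr rfl fun i _ => ?_
  ring


/-! ### one point -/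

/-- index set of the monomials -/
abbrev Ix (l l' S m : ℕ) := ∀ j : Fin l ⊕ Fin l', Fin (Sum.elim (fun _ => (S + 1) * m) (fun _ => m) j)

/-- the weights -/
def sw (l l' S : ℕ) : Fin l ⊕ Fin l' → ℕ := Sum.elim (fun _ => 1) (fun _ => S + 1)

/-- weight of a monomial -/
def wgt {l l' S m : ℕ} (α : Ix l l' S m) : ℕ := ∑ j, sw l l' S j * (α j : ℕ)

/-- the monomials in the adapted local coordinates -/
def mo (κ : σ → Bool) (S : ℕ) (g : σ → ℂ) {l l' m : ℕ} (b : Basis (Fin l ⊕ Fin l') ℂ (σ → ℂ))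
    (α : Ix l l' S m) : MvPolynomial σ ℂ :=
  ∏ j, up κ (S + 1) g (fun i => b.coord j (Pi.single i 1)) ^ (α j : ℕ)

theorem coord_eq {l l' : ℕ} (b : Basis (Fin l ⊕ Fin l') ℂ (σ → ℂ)) (j : Fin l ⊕ Fin l')
    (z : σ → ℂ) : ∑ i, b.coord j (Pi.single i 1) * z i = b.coord j z := by
  rw [LinearMap.pi_apply_eq_sum_univ (b.coord j) z]
  refine Finset.sum_congr rfl fun i _ => ?_
  rw [smul_eq_mul, mul_comm]
  congr 2
  funext j
  simp [Pi.single_apply, eq_comm]

theorem lead_up (κ : σ → Bool) (S : ℕ) (g : σ → ℂ) {l l' : ℕ}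
    (b : Basis (Fin l ⊕ Fin l') ℂ (σ → ℂ)) (x : Fin l ⊕ Fin l' → ℂ) (j : Fin l ⊕ Fin l') :
    Lead (fc κ S g (∑ j, x (Sum.inl j) • b (Sum.inl j)) (∑ j, x (Sum.inr j) • b (Sum.inr j))
      (up κ (S + 1) g (fun i => b.coord j (Pi.single i 1)))) (x j) (sw l l' S j) := by
  have h := up_isBigO κ S g (∑ j, x (Sum.inl j) • b (Sum.inl j))
    (∑ j, x (Sum.inr j) • b (Sum.inr j)) (fun i => b.coord j (Pi.single i 1))
  rw [coord_eq, coord_eq] at h
  cases j with
  | inl j =>
    have e1 : b.coord (Sum.inl j) (∑ j, x (Sum.inl j) • b (Sum.inl j)) = x (Sum.inl j) := by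
      rw [map_sum]
      simp only [map_smul, Basis.coord_apply, Basis.repr_self, smul_eq_mul]
      rw [Finset.sum_eq_single j]
      · simp
      · intro k _ hk
        rw [Finsupp.single_apply, if_neg (by simpa using hk), mul_zero]
      · intro h; exact absurd (Finset.mem_univ _) h
    have e2 : b.coord (Sum.inl j) (∑ j, x (Sum.inr j) • b (Sum.inr j)) = 0 := by
      rw [map_sum]
      simp only [map_smul, Basis.coord_apply, Basis.repr_self, smul_eq_mul]
      refine Finset.sum_eq_zero fun k _ => ?_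
      rw [Finsupp.single_apply, if_neg (by simp), mul_zero]
    rw [e1, e2] at h
    unfold Lead
    simp only [sw, Sum.elim_inl]
    refine (h.trans (pow_isBigO_pow (show 1 + 1 ≤ S + 2 by omega))).congr_left fun t => ?_
    ring
  | inr j =>
    have e1 : b.coord (Sum.inr j) (∑ j, x (Sum.inr j) • b (Sum.inr j)) = x (Sum.inr j) := by
      rw [map_sum]
      simp only [map_smul, Basis.coord_apply, Basis.repr_self, smul_eq_mul]
      rw [Finset.sum_eq_single j]
      · simp
      · intro k _ hk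
        rw [Finsupp.single_apply, if_neg (by simpa using hk), mul_zero]
      · intro h; exact absurd (Finset.mem_univ _) h
    have e2 : b.coord (Sum.inr j) (∑ j, x (Sum.inl j) • b (Sum.inl j)) = 0 := by
      rw [map_sum]
      simp only [map_smul, Basis.coord_apply, Basis.repr_self, smul_eq_mul]
      refine Finset.sum_eq_zero fun k _ => ?_
      rw [Finsupp.single_apply, if_neg (by simp), mul_zero]
    rw [e1, e2] at h
    unfold Lead
    simp only [sw, Sum.elim_inr]
    refine h.congr_left fun t => ?_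
    ring

theorem lead_mo (κ : σ → Bool) (S : ℕ) (g : σ → ℂ) {l l' m : ℕ}
    (b : Basis (Fin l ⊕ Fin l') ℂ (σ → ℂ)) (x : Fin l ⊕ Fin l' → ℂ) (α : Ix l l' S m) :
    Lead (fc κ S g (∑ j, x (Sum.inl j) • b (Sum.inl j)) (∑ j, x (Sum.inr j) • b (Sum.inr j))
      (mo κ S g b α)) (∏ j, x j ^ (α j : ℕ)) (wgt α) := by
  have h := Lead.prod Finset.univ _ _ _ (fun j => (lead_up κ S g b x j).pow (α j : ℕ))
  unfold wgt
  convert h using 1
  funext t
  simp only [fc, mo, map_prod, map_pow]

theorem wgt_lt {l l' S m : ℕ} (hl : 1 ≤ l + l') (α : Ix l l' S m) :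
    wgt α + 1 ≤ (S + 1) * ((l + l') * m) := by
  have h1 : ∀ j, sw l l' S j * (α j : ℕ) + 1 ≤ (S + 1) * m := by
    intro j
    have hj := (α j).2
    cases j with
    | inl j =>
      simp only [sw, Sum.elim_inl] at hj ⊢
      omega
    | inr j =>
      simp only [sw, Sum.elim_inr] at hj ⊢
      have : (S + 1) * (α (Sum.inr j) : ℕ) + (S + 1) ≤ (S + 1) * m := by
        calc (S + 1) * (α (Sum.inr j) : ℕ) + (S + 1) = (S + 1) * ((α (Sum.inr j) : ℕ) + 1) := by
              ring
          _ ≤ (S + 1) * m := Nat.mul_le_mul_left _ hj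
      omega
  have h2 : wgt α + (l + l') ≤ (l + l') * ((S + 1) * m) := by
    have h3 : ∑ j : Fin l ⊕ Fin l', (sw l l' S j * (α j : ℕ) + 1) ≤
        ∑ _j : Fin l ⊕ Fin l', (S + 1) * m := Finset.sum_le_sum fun j _ => h1 j
    rw [Finset.sum_add_distrib, Finset.sum_const, Finset.sum_const, Finset.card_univ,
      Fintype.card_sum, Fintype.card_fin, Fintype.card_fin, smul_eq_mul, smul_eq_mul,
      mul_one] at h3
    exact h3
  calc wgt α + 1 ≤ wgt α + (l + l') := by omega
    _ ≤ (l + l') * ((S + 1) * m) := h2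
    _ = (S + 1) * ((l + l') * m) := by ring

theorem indep_one (κ : σ → Bool) (W : Submodule ℂ (σ → ℂ)) (S : ℕ) (g : σ → ℂ) {l l' m : ℕ}
    (b : Basis (Fin l ⊕ Fin l') ℂ (σ → ℂ)) (hb : ∀ j, b (Sum.inl j) ∈ W)
    (hl : 1 ≤ l + l') (c : Ix l l' S m → ℂ)
    (hc : ∑ α, c α • mo κ S g b α ∈ wt κ W S g ((l + l') * m)) : ∀ α, c α = 0 := by
  classical
  suffices H : ∀ d, ∀ α, wgt α = d → c α = 0 from fun α => H _ α rfl
  intro d
  induction d using Nat.strong_induction_on with
  | _ d ih =>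
  -- the polynomial of weight `d`
  set Q : MvPolynomial (Fin l ⊕ Fin l') ℂ :=
    ∑ α ∈ Finset.univ.filter (fun α : Ix l l' S m => wgt α = d),
      monomial (Finsupp.equivFunOnFinite.symm (fun j => (α j : ℕ))) (c α) with hQ
  by_cases hd : d + 1 ≤ (S + 1) * ((l + l') * m)
  swap
  · intro α hα
    have := wgt_lt hl α
    omega
  have hQ0 : Q = 0 := by
    refine MvPolynomial.funext fun x => ?_
    rw [map_zero]
    have hev : eval x Q = ∑ α ∈ Finset.univ.filter (fun α : Ix l l' S m => wgt α = d),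
        c α * ∏ j, x j ^ (α j : ℕ) := by
      rw [hQ, map_sum]
      refine Finset.sum_congr rfl fun α _ => ?_
      rw [eval_monomial]
      congr 1
      rw [Finsupp.prod_fintype _ _ (fun i => by simp)]
      rfl
    rw [hev]
    refine coeff_eq_zero_of_isBigO (d := d) ?_
    set w : σ → ℂ := ∑ j, x (Sum.inl j) • b (Sum.inl j) with hw
    set v : σ → ℂ := ∑ j, x (Sum.inr j) • b (Sum.inr j) with hv
    have hwW : w ∈ W := Submodule.sum_mem _ fun j _ => W.smul_mem _ (hb j)
    have h1 := ((mem_wt κ W S g _ _).1 hc w hwW v).trans (pow_isBigO_pow hd)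
    -- term by term
    have h2 : ∀ α : Ix l l' S m, (fun t : ℂ => c α * (fc κ S g w v (mo κ S g b α) t) -
        (if wgt α = d then c α * ∏ j, x j ^ (α j : ℕ) else 0) * t ^ d) =O[𝓝 0]
        (fun t : ℂ => t ^ (d + 1)) := by
      intro α
      have hL := lead_mo κ S g b x α
      by_cases hα : wgt α = d
      · rw [← hα]
        simp only [if_true]
        refine (IsBigO.const_mul_left hL (c α)).congr_left fun t => ?_
        ring
      · simp only [hα, if_false, zero_mul, sub_zero]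
        rcases lt_or_gt_of_ne hα with h | h
        · rw [ih _ h α rfl]
          simp only [zero_mul]
          exact isBigO_zero _ _
        · exact (hL.isBigO.trans (pow_isBigO_pow h)).const_mul_left (c α)
    have h3 := IsBigO.sum (s := Finset.univ) (l := 𝓝 (0 : ℂ)) (g := fun t : ℂ => t ^ (d + 1))
      (fun α (_ : α ∈ Finset.univ) => h2 α)
    refine (h1.sub h3).congr_left fun t => ?_
    rw [Finset.sum_apply, Finset.sum_sub_distrib, ← Finset.sum_mul, Finset.sum_ite,
      Finset.sum_const_zero, add_zero]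
    have e : fc κ S g w v (∑ α, c α • mo κ S g b α) t =
        ∑ α, c α * fc κ S g w v (mo κ S g b α) t := by
      simp only [fc, map_sum, smul_eval]
    rw [e]
    ring
  intro α hα
  have hcoeff := congrArg (coeff (Finsupp.equivFunOnFinite.symm (fun j => (α j : ℕ)))) hQ0
  rw [hQ, coeff_sum, coeff_zero, Finset.sum_eq_single α] at hcoeff
  · simpa using hcoeff
  · intro β _ hβ
    rw [coeff_monomial, if_neg]
    intro h
    apply hβ
    have h' := Finsupp.equivFunOnFinite.symm.injective h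
    funext j
    exact Fin.ext (congrFun h' j)
  · intro h
    exact (h (Finset.mem_filter.2 ⟨Finset.mem_univ _, hα⟩)).elim

/-- a basis adapted to a subspace -/
theorem exists_basis (W : Submodule ℂ (σ → ℂ)) : ∃ (l' : ℕ)
    (b : Basis (Fin (finrank ℂ W) ⊕ Fin l') ℂ (σ → ℂ)), (∀ j, b (Sum.inl j) ∈ W) ∧
    finrank ℂ W + l' = Fintype.card σ := by
  obtain ⟨W', hW'⟩ := Submodule.exists_isCompl W
  refine ⟨finrank ℂ W', ((finBasis ℂ W).prod (finBasis ℂ W')).map
    (Submodule.prodEquivOfIsCompl W W' hW'), ?_, ?_⟩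
  · intro j
    rw [Basis.map_apply, Basis.prod_apply, Sum.elim_inl]
    simp
  · rw [Submodule.finrank_add_eq_of_isCompl hW', Module.finrank_fintype_fun_eq_card]

theorem one_point (κ : σ → Bool) (W : Submodule ℂ (σ → ℂ)) (S : ℕ) (g : σ → ℂ) (m : ℕ)
    (hσ : 1 ≤ Fintype.card σ)
    [Module.Finite ℂ (MvPolynomial σ ℂ ⧸ wtI κ W S g (Fintype.card σ * m))] :
    (S + 1) ^ finrank ℂ W * m ^ Fintype.card σ ≤
      finrank ℂ (MvPolynomial σ ℂ ⧸ wtI κ W S g (Fintype.card σ * m)) := by
  obtain ⟨l', b, hb, hl⟩ := exists_basis W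
  have hli : LinearIndependent ℂ (fun α : Ix (finrank ℂ W) l' S m =>
      (Ideal.Quotient.mkₐ ℂ (wtI κ W S g (Fintype.card σ * m))) (mo κ S g b α)) := by
    rw [Fintype.linearIndependent_iff]
    intro c hc
    have h1 : (Ideal.Quotient.mkₐ ℂ (wtI κ W S g (Fintype.card σ * m)))
        (∑ α, c α • mo κ S g b α) = 0 := by
      rw [map_sum]
      simpa only [map_smul] using hc
    have h2 : ∑ α, c α • mo κ S g b α ∈ wtI κ W S g (Fintype.card σ * m) := by
      rw [← Ideal.Quotient.eq_zero_iff_mem]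
      exact h1
    rw [mem_wtI, ← hl] at h2
    exact indep_one κ W S g b hb (by omega) c h2
  have h := hli.fintype_card_le_finrank
  refine le_trans (le_of_eq ?_) h
  rw [Fintype.card_pi]
  simp only [Fintype.card_fin]
  rw [Fintype.prod_sum_type]
  simp only [Sum.elim_inl, Sum.elim_inr, Fintype.card_fin, Finset.prod_const, Finset.card_univ]
  rw [← hl, pow_add, mul_pow]
  ring

end

theorem mul_target : T_MUL := by
  intro ι _ _ κ W S m F I hι hF hI hfin
  rcases Nat.eq_zero_or_pos m with rfl | hm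
  · rw [zero_pow (by omega), mul_zero, mul_zero]
    exact Nat.zero_le _
  set J : F → Ideal (MvPolynomial ι ℂ) := fun g => wtI κ W S g (Fintype.card ι * m) with hJ
  have hIJ : ∀ g, I ≤ J g := fun g f hf => hI f hf g g.2
  have hco : Pairwise (Function.onFun IsCoprime J) := by
    intro g g' hgg'
    have hne : pt κ (g : ι → ℂ) ≠ pt κ (g' : ι → ℂ) := fun h =>
      hgg' (Subtype.ext (hF g g.2 g' g'.2 h))
    obtain ⟨i, hi⟩ := Function.ne_iff.1 hne
    have h1 : (X i - C (pt κ (g : ι → ℂ) i) : MvPolynomial ι ℂ) ^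
        ((S + 1) * (Fintype.card ι * m)) ∈ J g := by
      refine pow_mem_wt κ W S g _ _ ?_
      simp
    have h2 : (X i - C (pt κ (g' : ι → ℂ) i) : MvPolynomial ι ℂ) ^
        ((S + 1) * (Fintype.card ι * m)) ∈ J g' := by
      refine pow_mem_wt κ W S g' _ _ ?_
      simp
    have h3 : IsCoprime (X i - C (pt κ (g : ι → ℂ) i) : MvPolynomial ι ℂ)
        (X i - C (pt κ (g' : ι → ℂ) i)) := by
      refine ⟨C ((pt κ (g' : ι → ℂ) i - pt κ (g : ι → ℂ) i)⁻¹),
        - C ((pt κ (g' : ι → ℂ) i - pt κ (g : ι → ℂ) i)⁻¹), ?_⟩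
      have hne' : pt κ (g' : ι → ℂ) i - pt κ (g : ι → ℂ) i ≠ 0 := sub_ne_zero.2 (Ne.symm hi)
      calc C ((pt κ (g' : ι → ℂ) i - pt κ (g : ι → ℂ) i)⁻¹) * (X i - C (pt κ (g : ι → ℂ) i)) +
            - C ((pt κ (g' : ι → ℂ) i - pt κ (g : ι → ℂ) i)⁻¹) *
              (X i - C (pt κ (g' : ι → ℂ) i)) =
            C ((pt κ (g' : ι → ℂ) i - pt κ (g : ι → ℂ) i)⁻¹) *
              C (pt κ (g' : ι → ℂ) i - pt κ (g : ι → ℂ) i) := by
              rw [map_sub]; ring
        _ = 1 := by rw [← map_mul, inv_mul_cancel₀ hne', map_one]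
    have h4 := h3.pow (m := (S + 1) * (Fintype.card ι * m))
      (n := (S + 1) * (Fintype.card ι * m))
    obtain ⟨a, b, hab⟩ := h4
    show IsCoprime (J g) (J g')
    rw [Ideal.isCoprime_iff_exists]
    exact ⟨_, (J g).mul_mem_left a h1, _, (J g').mul_mem_left b h2, hab⟩
  have hfinJ : ∀ g, Module.Finite ℂ (MvPolynomial ι ℂ ⧸ J g) := fun g =>
    Module.Finite.of_surjective (Ideal.Quotient.factorₐ ℂ (hIJ g)).toLinearMap
      (Ideal.Quotient.factor_surjective (hIJ g))
  -- the map to the product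
  let Φ : (MvPolynomial ι ℂ ⧸ I) →ₗ[ℂ] (∀ g, MvPolynomial ι ℂ ⧸ J g) :=
    LinearMap.pi fun g => (Ideal.Quotient.factorₐ ℂ (hIJ g)).toLinearMap
  have hΦ : Function.Surjective Φ := by
    intro x
    obtain ⟨r, hr⟩ := Ideal.pi_quotient_surjective hco x
    refine ⟨Ideal.Quotient.mk I r, ?_⟩
    funext g
    exact hr g
  have h1 := LinearMap.finrank_le_finrank_of_surjective hΦ
  rw [Module.finrank_pi_fintype] at h1
  refine le_trans ?_ h1
  calc F.card * ((S + 1) ^ finrank ℂ W * m ^ Fintype.card ι) =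
      ∑ _g : F, ((S + 1) ^ finrank ℂ W * m ^ Fintype.card ι) := by
        rw [Finset.sum_const, Finset.card_univ, Fintype.card_coe, smul_eq_mul]
    _ ≤ ∑ g, finrank ℂ (MvPolynomial ι ℂ ⧸ J g) := by
        refine Finset.sum_le_sum fun g _ => ?_
        have := hfinJ g
        exact one_point κ W S g m hι

end

end Pool.Agent.H46.HR
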