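import Pool.Agent.H72.HRA.Targets
import Pool.Agent.H46.HR.LVLA

/-!
Module POL of the board hrk_modules: polynomials in algebraic numbers of bounded degree and height.
-/

open Finset Polynomial

namespace Pool.Agent.H46.HR

open Pool.Agent.H72.HR Pool.Agent.H72.HRA Pool.Agent.H72.BF Pool.Agent.H65.BF

/-! ### majorants -/

/-- the integer polynomial `p` is majorised by the real polynomial `P` -/
def Dom (p : ℤ[X]) (P : ℝ[X]) : Prop := ∀ i, |(p.coeff i : ℝ)| ≤ P.coeff i

theorem Dom.add {p q : ℤ[X]} {P Q : ℝ[X]} (hp : Dom p P) (hq : Dom q Q) : Dom (p + q) (P + Q) := by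
  intro i
  rw [coeff_add, coeff_add]
  push_cast
  exact (abs_add_le _ _).trans (add_le_add (hp i) (hq i))

theorem Dom.mul {p q : ℤ[X]} {P Q : ℝ[X]} (hp : Dom p P) (hq : Dom q Q) : Dom (p * q) (P * Q) := by
  intro n
  rw [coeff_mul, coeff_mul]
  push_cast
  refine (Finset.abs_sum_le_sum_abs _ _).trans (Finset.sum_le_sum fun x _ => ?_)
  rw [abs_mul]
  exact mul_le_mul (hp _) (hq _) (abs_nonneg _) ((abs_nonneg _).trans (hp _))

theorem Dom.sum {κ : Type*} (s : Finset κ) {p : κ → ℤ[X]} {P : κ → ℝ[X]}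
    (h : ∀ k ∈ s, Dom (p k) (P k)) : Dom (∑ k ∈ s, p k) (∑ k ∈ s, P k) := by
  classical
  induction s using Finset.induction_on with
  | empty => intro i; simp
  | insert a s ha ih =>
    rw [Finset.sum_insert ha, Finset.sum_insert ha]
    exact (h a (Finset.mem_insert_self _ _)).add (ih fun k hk => h k (Finset.mem_insert_of_mem hk))

theorem Dom.one : Dom 1 1 := by
  intro i
  rw [coeff_one, coeff_one]
  split_ifs <;> simp

theorem Dom.prod {κ : Type*} (s : Finset κ) {p : κ → ℤ[X]} {P : κ → ℝ[X]}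
    (h : ∀ k ∈ s, Dom (p k) (P k)) : Dom (∏ k ∈ s, p k) (∏ k ∈ s, P k) := by
  classical
  induction s using Finset.induction_on with
  | empty => simpa using Dom.one
  | insert a s ha ih =>
    rw [Finset.prod_insert ha, Finset.prod_insert ha]
    exact (h a (Finset.mem_insert_self _ _)).mul (ih fun k hk => h k (Finset.mem_insert_of_mem hk))

theorem Dom.coeff_le {p : ℤ[X]} {P : ℝ[X]} (h : Dom p P) (i : ℕ) :
    |(p.coeff i : ℝ)| ≤ P.eval 1 := by
  refine (h i).trans ?_
  rw [eval_eq_sum_range]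
  simp only [one_pow, mul_one]
  by_cases hi : i ∈ range (P.natDegree + 1)
  · exact Finset.single_le_sum (f := fun i => P.coeff i)
      (fun i _ => (abs_nonneg _).trans (h i)) hi
  · have : P.coeff i = 0 := coeff_eq_zero_of_natDegree_lt (by rw [mem_range] at hi; omega)
    rw [this]
    exact Finset.sum_nonneg fun i _ => (abs_nonneg _).trans (h i)

theorem Dom.units_smul {p : ℤ[X]} {P : ℝ[X]} (h : Dom p P) (e : ℤˣ) : Dom (e • p) P := by
  intro i
  rcases Int.units_eq_one_or e with rfl | rfl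
  · simpa using h i
  · simpa using h i

theorem charpoly_coeff_le {V : Type} [Fintype V] [DecidableEq V] (M : Matrix V V ℤ) (Y : ℝ)
    (hM : ∀ i j, |(M i j : ℝ)| ≤ Y) (i : ℕ) :
    |((M.charpoly).coeff i : ℝ)| ≤ (Fintype.card V).factorial * (1 + Y) ^ Fintype.card V := by
  have hent : ∀ i j, Dom (M.charmatrix i j) (X + C Y) := by
    intro i j k
    rw [Matrix.charmatrix_apply]
    by_cases hij : i = j
    · subst hij
      rw [Matrix.diagonal_apply_eq, coeff_sub, coeff_add, coeff_C, coeff_C, coeff_X, coeff_X]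
      rcases Nat.eq_zero_or_pos k with hk | hk
      · subst hk
        simpa using hM i i
      · by_cases hk1 : k = 1
        · subst hk1; simp
        · have h0 : k ≠ 0 := by omega
          have h1 : 1 ≠ k := fun h => hk1 h.symm
          simp [h0, h1]
    · rw [Matrix.diagonal_apply_ne _ hij, zero_sub, coeff_neg, coeff_add, coeff_C, coeff_C, coeff_X]
      push_cast
      rw [abs_neg]
      rcases Nat.eq_zero_or_pos k with hk | hk
      · subst hk
        simpa using hM i j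
      · have h0 : k ≠ 0 := by omega
        simp only [h0, if_false]
        split_ifs <;> simp
  have hdet : Dom M.charpoly (∑ _σ : Equiv.Perm V, ∏ _i : V, (X + C Y)) := by
    rw [Matrix.charpoly, Matrix.det_apply]
    exact Dom.sum _ fun σ _ => (Dom.prod _ fun i _ => hent _ _).units_smul _
  refine (hdet.coeff_le i).trans (le_of_eq ?_)
  rw [Finset.prod_const, Finset.sum_const, Finset.card_univ, Finset.card_univ,
    Fintype.card_perm, nsmul_eq_mul]
  simp

/-- an eigenvalue of an integer matrix with bounded entries -/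
theorem eigen_intB {V : Type} [Fintype V] [DecidableEq V] (M : Matrix V V ℤ) (Y : ℝ)
    (hM : ∀ i j, |(M i j : ℝ)| ≤ Y) (v : V → ℂ) (hv : v ≠ 0) (x : ℂ)
    (hx : ∀ i, x * v i = ∑ j, (M i j : ℂ) * v j) :
    IntB (Fintype.card V) ((Fintype.card V).factorial * (1 + Y) ^ Fintype.card V) x := by
  refine ⟨M.charpoly, Matrix.charpoly_monic M, Matrix.charpoly_natDegree_eq_dim M,
    fun i => charpoly_coeff_le M Y hM i, ?_⟩
  have h1 : aeval x M.charpoly = (M.map (Int.castRingHom ℂ)).charpoly.eval x := by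
    rw [Matrix.charpoly_map, eval_map, aeval_def]
    rfl
  rw [h1, Matrix.eval_charpoly, ← Matrix.exists_mulVec_eq_zero_iff]
  refine ⟨v, hv, ?_⟩
  funext i
  rw [Matrix.sub_mulVec]
  simp only [Pi.sub_apply, Pi.zero_apply]
  rw [Matrix.scalar_apply, Matrix.mulVec_diagonal, hx i]
  simp [Matrix.mulVec, dotProduct]

theorem natcast_le_pow (H : ℝ) (hH : 2 ≤ H) (m : ℕ) : (m : ℝ) ≤ H ^ m := by
  calc (m : ℝ) ≤ ((2 ^ m : ℕ) : ℝ) := by exact_mod_cast Nat.lt_two_pow_self.le
    _ = (2 : ℝ) ^ m := by push_cast; rfl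
    _ ≤ H ^ m := by gcongr

/-- an element with a small representation is an algebraic integer of bounded height -/
theorem rep_intB {ι : Type} [Fintype ι] [DecidableEq ι] (δ : ℕ) (hδ : 1 ≤ δ) (θ : ι → ℂ) (B Y : ℝ)
    (hB : 0 ≤ B) (hI : ∀ i, IntB δ B (θ i)) (x : ℂ) (hx : Rep δ θ Y x) :
    IntB (δ ^ Fintype.card ι) ((δ ^ Fintype.card ι).factorial *
      (1 + (1 + B) ^ (δ * Fintype.card ι) * Y) ^ (δ ^ Fintype.card ι)) x := by
  have R := repC Pool.Agent.H30.BF.rep ι δ θ hδ
  have hY : 0 ≤ Y := rep_nonneg hδ hx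
  have : NeZero δ := ⟨by omega⟩
  have hmul : ∀ e : ι → Fin δ, Rep δ θ ((1 + B) ^ (δ * Fintype.card ι) * Y)
      ((∏ i, θ i ^ (e i : ℕ)) * x) := by
    intro e
    have h1 : MulB δ θ ((1 + B) ^ (δ * Fintype.card ι)) (∏ i, θ i ^ (e i : ℕ)) := by
      refine (MulB.prod univ fun i _ => (R.mulTheta (hI i)).pow (e i : ℕ)).mono hδ ?_
      calc ∏ i, (1 + B) ^ (e i : ℕ) ≤ ∏ _i : ι, (1 + B) ^ δ :=
            Finset.prod_le_prod (fun _ _ => by positivity) fun i _ =>
              pow_le_pow_right₀ (by linarith) (e i).2.le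
        _ = _ := by rw [Finset.prod_const, Finset.card_univ, ← pow_mul]
    exact h1 _ _ hx
  choose M hM1 hM2 using hmul
  have hc : Fintype.card (ι → Fin δ) = δ ^ Fintype.card ι := by simp
  have := eigen_intB (Matrix.of M) _ (fun i j => hM1 i j)
    (fun e => ∏ i, θ i ^ (e i : ℕ)) (by
      intro h
      have h1 := congrFun h 0
      simp at h1) x (fun e => by
        rw [mul_comm]
        exact hM2 e)
  rw [hc] at this
  exact this

theorem algB_div (N : ℕ) (K D : ℝ) (x z : ℂ) (den : ℤ) (hden : den ≠ 0) (hD : |(den : ℝ)| ≤ D)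
    (hD1 : 1 ≤ D) (hx : IntB N K x) (hxz : x = (den : ℂ) * z) : AlgB N (K * D ^ N) z := by
  obtain ⟨q, hm, hd, hc, h0⟩ := hx
  have hK : 0 ≤ K := (abs_nonneg _).trans (hc 0)
  refine ⟨q.comp (C den * X), ?_, ?_, ?_, ?_⟩
  · intro h
    have h1 := congrArg (fun p => p.coeff N) h
    simp only [comp_C_mul_X_coeff, coeff_zero] at h1
    have h2 : q.coeff N = 1 := by rw [← hd]; exact hm
    rw [h2, one_mul] at h1
    exact pow_ne_zero _ hden h1
  · rw [natDegree_le_iff_coeff_eq_zero]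
    intro i hi
    rw [comp_C_mul_X_coeff, coeff_eq_zero_of_natDegree_lt (by omega), zero_mul]
  · intro i
    rw [comp_C_mul_X_coeff]
    by_cases hi : i ≤ N
    · push_cast
      rw [abs_mul, abs_pow]
      have h1 := hc i
      calc |(q.coeff i : ℝ)| * |(den : ℝ)| ^ i ≤ K * D ^ i := by gcongr
        _ ≤ K * D ^ N := by gcongr
    · rw [coeff_eq_zero_of_natDegree_lt (by omega), zero_mul]
      simp only [Int.cast_zero, abs_zero]
      positivity
  · rw [aeval_comp, map_mul, aeval_C, aeval_X]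
    rw [hxz] at h0
    simpa using h0

theorem algB_mono' {δ δ' : ℕ} {A A' : ℝ} {x : ℂ} (h : AlgB δ A x) (hδ : δ ≤ δ') (hA : A ≤ A') :
    AlgB δ' A' x := algB_mono h hδ hA

theorem pol_target : T_POL := by
  intro ι _ _ δ D
  set δ1 : ℕ := δ + 1 with hδ1
  have hδ11 : 1 ≤ δ1 := by omega
  set r : ℕ := Fintype.card ι with hr
  set N : ℕ := δ1 ^ r with hN
  set cY : ℕ := (D + 1) ^ r + 1 + (δ1 + 2) * D * r with hcY
  set cY' : ℕ := (δ1 + 1) * (δ1 * r) + cY with hcY'
  refine ⟨N, N.factorial + (1 + cY') * N + D * r * N, ?_⟩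
  intro H hH z hz Q hQ hQc
  have hH1 : (1 : ℝ) ≤ H := by linarith
  have hH0 : (0 : ℝ) ≤ H := by linarith
  choose b hb0 hbb hbI using fun i => Pool.Agent.H54.BF.alg δ1 H (z i) hδ11 hH1
    (algB_mono (hz i) (by omega) le_rfl)
  set θ : ι → ℂ := fun i => (b i : ℂ) * z i with hθ
  set B : ℝ := H ^ δ1 with hB
  have hB0 : 0 ≤ B := by positivity
  have h1B : 1 + B ≤ H ^ (δ1 + 1) := by
    have h1 : (1 : ℝ) ≤ H ^ δ1 := one_le_pow₀ hH1
    have h2 : H ^ (δ1 + 1) = H ^ δ1 * H := pow_succ _ _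
    rw [h2, hB]
    nlinarith
  have R := repC Pool.Agent.H30.BF.rep ι δ1 θ hδ11
  set den : ℤ := ∏ i, b i ^ D with hden
  have hden0 : den ≠ 0 := Finset.prod_ne_zero_iff.mpr fun i _ => pow_ne_zero _ (hb0 i)
  have hdenb : |(den : ℝ)| ≤ H ^ (D * r) := by
    rw [hden]
    push_cast
    rw [Finset.abs_prod]
    calc ∏ i, |(b i : ℝ) ^ D| ≤ ∏ _i : ι, H ^ D := by
          refine Finset.prod_le_prod (fun _ _ => abs_nonneg _) fun i _ => ?_
          rw [abs_pow]
          have := hbb i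
          gcongr
      _ = _ := by rw [Finset.prod_const, Finset.card_univ, ← pow_mul]
  have hmD : ∀ m ∈ Q.support, ∀ i, m i ≤ D := by
    intro m hm i
    have h1 := (MvPolynomial.le_totalDegree hm).trans hQ
    by_cases hi : m i = 0
    · omega
    · have h2 : m i ≤ m.sum fun _ e => e := by
        rw [Finsupp.sum]
        exact Finset.single_le_sum (f := fun i => m i) (fun _ _ => Nat.zero_le _)
          (Finsupp.mem_support_iff.mpr hi)
      omega
  -- representation of the monomials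
  have hmon : ∀ m ∈ Q.support, MulB δ1 θ (H ^ ((δ1 + 2) * D * r))
      (∏ i, ((b i : ℂ) ^ D * z i ^ (m i))) := by
    intro m hm
    have h1 : ∀ i ∈ (univ : Finset ι), MulB δ1 θ (H ^ ((δ1 + 2) * D)) ((b i : ℂ) ^ D * z i ^ (m i)) := by
      intro i _
      have h2 := hmD m hm i
      have e0 : (b i : ℂ) ^ D * z i ^ (m i) = ((b i ^ (D - m i) : ℤ) : ℂ) * θ i ^ (m i) := by
        rw [hθ]
        push_cast
        rw [mul_pow]
        have : (b i : ℂ) ^ D = b i ^ (D - m i) * b i ^ (m i) := by rw [← pow_add]; congr 1; omega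
        rw [this]; ring
      rw [e0]
      refine ((R.mulInt _).mul ((R.mulTheta (hbI i)).pow (m i))).mono hδ11 ?_
      push_cast
      rw [abs_pow]
      have h3 := hbb i
      calc |(b i : ℝ)| ^ (D - m i) * (1 + B) ^ (m i) ≤ H ^ (D - m i) * (H ^ (δ1 + 1)) ^ (m i) := by
            gcongr
        _ ≤ H ^ D * (H ^ (δ1 + 1)) ^ D := by
            have h4 : (1 : ℝ) ≤ H ^ (δ1 + 1) := one_le_pow₀ hH1
            gcongr
            · omega
        _ = _ := by rw [← pow_mul, ← pow_add]; congr 1; ring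
    refine (MulB.prod univ h1).mono hδ11 (le_of_eq ?_)
    rw [Finset.prod_const, Finset.card_univ, ← pow_mul]
  have hcard : (Q.support.card : ℝ) ≤ H ^ ((D + 1) ^ r) := by
    have h1 : Q.support.card ≤ (D + 1) ^ r := by
      have h2 : Q.support.card ≤ (Finset.univ : Finset (ι → Fin (D + 1))).card := by
        refine Finset.card_le_card_of_injOn (fun m i => ⟨min (m i) D, by omega⟩)
          (fun _ _ => Finset.mem_coe.mpr (Finset.mem_univ _)) ?_
        intro m hm m' hm' h
        ext i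
        have h3 := congrArg Fin.val (congrFun h i)
        have h4 := hmD m hm i
        have h5 := hmD m' hm' i
        simp only at h3
        omega
      rwa [Finset.card_univ, Fintype.card_fun, Fintype.card_fin] at h2
    calc (Q.support.card : ℝ) ≤ (((D + 1) ^ r : ℕ) : ℝ) := by exact_mod_cast h1
      _ ≤ _ := natcast_le_pow H hH _
  have hrep : Rep δ1 θ (H ^ cY) ((den : ℂ) * MvPolynomial.aeval z Q) := by
    have h1 : (den : ℂ) * MvPolynomial.aeval z Q =
        ∑ m ∈ Q.support, ((Q.coeff m : ℤ) : ℂ) * ∏ i, ((b i : ℂ) ^ D * z i ^ (m i)) := by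
      rw [MvPolynomial.aeval_def, MvPolynomial.eval₂_eq', Finset.mul_sum]
      refine Finset.sum_congr rfl fun m _ => ?_
      rw [Finset.prod_mul_distrib, hden]
      push_cast
      simp only [algebraMap_int_eq, eq_intCast]
      ring
    rw [h1]
    have h2 : Rep δ1 θ (∑ m ∈ Q.support, |((Q.coeff m : ℤ) : ℝ)| * (H ^ ((δ1 + 2) * D * r)))
        (∑ m ∈ Q.support, ((Q.coeff m : ℤ) : ℂ) * ∏ i, ((b i : ℂ) ^ D * z i ^ (m i))) := by
      refine R.sum _ _ _ fun m hm => ?_
      apply R.smul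
      have h3 : Rep δ1 θ 1 1 := by simpa using R.int 1
      have h4 := hmon m hm 1 1 h3
      rwa [mul_one, mul_one] at h4
    refine rep_mono h2 ?_
    calc ∑ m ∈ Q.support, |((Q.coeff m : ℤ) : ℝ)| * (H ^ ((δ1 + 2) * D * r))
        ≤ ∑ _m ∈ Q.support, H * (H ^ ((δ1 + 2) * D * r)) := by
          refine Finset.sum_le_sum fun m _ => ?_
          have := hQc m
          gcongr
      _ = (Q.support.card : ℝ) * (H * (H ^ ((δ1 + 2) * D * r))) := by
          rw [Finset.sum_const, nsmul_eq_mul]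
      _ ≤ H ^ ((D + 1) ^ r) * (H * (H ^ ((δ1 + 2) * D * r))) := by gcongr
      _ = H ^ cY := by
          rw [hcY, pow_add, pow_add, pow_one]; ring
  have hint := rep_intB δ1 hδ11 θ B _ hB0 hbI _ hrep
  have halg := algB_div _ _ (H ^ (D * r)) _ _ den hden0 hdenb (one_le_pow₀ hH1) hint rfl
  refine algB_mono halg (le_of_eq ?_) ?_
  · rw [hN]
  · rw [← hr, ← hN]
    have k1 : (1 + B) ^ (δ1 * r) * H ^ cY ≤ H ^ cY' := by
      calc (1 + B) ^ (δ1 * r) * H ^ cY ≤ (H ^ (δ1 + 1)) ^ (δ1 * r) * H ^ cY := by gcongr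
        _ = _ := by rw [← pow_mul, ← pow_add]
    have k2 : 1 + (1 + B) ^ (δ1 * r) * H ^ cY ≤ H ^ (1 + cY') := by
      have h1 : (1 : ℝ) ≤ H ^ cY' := one_le_pow₀ hH1
      have h2 : H ^ (1 + cY') = H * H ^ cY' := by rw [pow_add, pow_one]
      rw [h2]
      nlinarith
    have k3 : ((N.factorial : ℕ) : ℝ) ≤ H ^ N.factorial := natcast_le_pow H hH _
    calc ((N.factorial : ℕ) : ℝ) * (1 + (1 + B) ^ (δ1 * r) * H ^ cY) ^ N * (H ^ (D * r)) ^ N
        ≤ H ^ N.factorial * (H ^ (1 + cY')) ^ N * (H ^ (D * r)) ^ N := by gcongr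
      _ = _ := by rw [← pow_mul, ← pow_mul, ← pow_add, ← pow_add]

end Pool.Agent.H46.HR
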