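import Pool.Agent.H72.HR.Targets

open MvPolynomial Module Asymptotics Filter Topology

namespace Pool.Agent.H46.HR

open Pool.Agent.H72.HR

noncomputable section

/-- one integration improves the order of vanishing by one -/
theorem isBigO_pow_succ {φ ψ : ℂ → ℂ} {k : ℕ} (hd : ∀ t, HasDerivAt φ (ψ t) t) (h0 : φ 0 = 0)
    (hψ : ψ =O[𝓝 0] (fun t : ℂ => t ^ k)) : φ =O[𝓝 0] (fun t : ℂ => t ^ (k + 1)) := by
  obtain ⟨C, hC⟩ := hψ.bound
  obtain ⟨r, hr, hb⟩ := Metric.eventually_nhds_iff.1 hC
  refine IsBigO.of_bound (max C 0) ?_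
  rw [Metric.eventually_nhds_iff]
  refine ⟨r, hr, fun t ht => ?_⟩
  have h1 : ‖φ t - φ 0‖ ≤ (max C 0 * ‖t‖ ^ k) * ‖t - 0‖ := by
    refine (convex_closedBall (0 : ℂ) ‖t‖).norm_image_sub_le_of_norm_hasDerivWithin_le
      (f := φ) (f' := ψ) (fun x _ => (hd x).hasDerivWithinAt) ?_ ?_ ?_
    · intro x hx
      have hx' : ‖x‖ ≤ ‖t‖ := by simpa using hx
      have ht' : ‖t‖ < r := by simpa using ht
      have hb' := @hb x (by simpa using lt_of_le_of_lt hx' ht')
      rw [norm_pow] at hb'
      calc ‖ψ x‖ ≤ C * ‖x‖ ^ k := hb'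
        _ ≤ max C 0 * ‖x‖ ^ k := by gcongr; exact le_max_left _ _
        _ ≤ max C 0 * ‖t‖ ^ k := by gcongr
    · simp
    · simp
  rw [h0, sub_zero, sub_zero] at h1
  rw [norm_pow, pow_succ, ← mul_assoc]
  exact h1

section
variable {σ : Type} [Fintype σ] [DecidableEq σ]

/-- the curve -/
def cv (S : ℕ) (g w v : σ → ℂ) (t : ℂ) : σ → ℂ := g + t • w + t ^ (S + 1) • v

/-- the function on the curve -/
def fc (κ : σ → Bool) (S : ℕ) (g w v : σ → ℂ) (f : MvPolynomial σ ℂ) (t : ℂ) : ℂ :=
  eval (pt κ (cv S g w v t)) f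

omit [Fintype σ] [DecidableEq σ] in
theorem mem_wt (κ : σ → Bool) (W : Submodule ℂ (σ → ℂ)) (S : ℕ) (g : σ → ℂ) (n : ℕ)
    (f : MvPolynomial σ ℂ) :
    f ∈ wt κ W S g n ↔ ∀ w ∈ W, ∀ v : σ → ℂ,
      fc κ S g w v f =O[𝓝 0] (fun t : ℂ => t ^ ((S + 1) * n)) := Iff.rfl

omit [Fintype σ] [DecidableEq σ] in
theorem continuous_pt_apply (κ : σ → Bool) (c : ℂ → σ → ℂ) (i : σ)
    (hc : Continuous (fun t => c t i)) : Continuous (fun t : ℂ => pt κ (c t) i) := by
  unfold pt
  by_cases h : κ i
  · simp only [h, if_true]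
    exact Complex.continuous_exp.comp hc
  · simp only [h, if_false, Bool.false_eq_true]
    exact hc

omit [Fintype σ] [DecidableEq σ] in
theorem continuous_cv (S : ℕ) (g w v : σ → ℂ) (i : σ) : Continuous (fun t => cv S g w v t i) := by
  unfold cv
  simp only [Pi.add_apply, Pi.smul_apply, smul_eq_mul]
  fun_prop

omit [Fintype σ] [DecidableEq σ] in
theorem continuous_fc (κ : σ → Bool) (S : ℕ) (g w v : σ → ℂ) (f : MvPolynomial σ ℂ) :
    Continuous (fc κ S g w v f) := by
  induction f using MvPolynomial.induction_on with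
  | C a =>
    have : fc κ S g w v (C a) = fun _ => a := by funext t; simp [fc]
    rw [this]; exact continuous_const
  | add p q hp hq =>
    have : fc κ S g w v (p + q) = fun t => fc κ S g w v p t + fc κ S g w v q t := by
      funext t; simp [fc]
    rw [this]; exact hp.add hq
  | mul_X p i hp =>
    have : fc κ S g w v (p * X i) =
        fun t => fc κ S g w v p t * pt κ (cv S g w v t) i := by
      funext t; simp [fc]
    rw [this]
    exact hp.mul (continuous_pt_apply κ _ i (continuous_cv S g w v i))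

omit [Fintype σ] [DecidableEq σ] in
theorem fc_isBigO_one (κ : σ → Bool) (S : ℕ) (g w v : σ → ℂ) (f : MvPolynomial σ ℂ) :
    fc κ S g w v f =O[𝓝 0] (fun _ : ℂ => (1 : ℂ)) :=
  ((continuous_fc κ S g w v f).continuousAt (x := 0)).norm.isBoundedUnder_le.isBigO_one ℂ

omit [Fintype σ] [DecidableEq σ] in
theorem fc_mul (κ : σ → Bool) (S : ℕ) (g w v : σ → ℂ) (f f' : MvPolynomial σ ℂ) :
    fc κ S g w v (f * f') = fun t => fc κ S g w v f t * fc κ S g w v f' t := by
  funext t; simp [fc]

omit [Fintype σ] [DecidableEq σ] in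
theorem fc_add (κ : σ → Bool) (S : ℕ) (g w v : σ → ℂ) (f f' : MvPolynomial σ ℂ) :
    fc κ S g w v (f + f') = fun t => fc κ S g w v f t + fc κ S g w v f' t := by
  funext t; simp [fc]

omit [Fintype σ] [DecidableEq σ] in
theorem wt_mul (κ : σ → Bool) (W : Submodule ℂ (σ → ℂ)) (S : ℕ) (g : σ → ℂ) (m n : ℕ)
    (f f' : MvPolynomial σ ℂ) (hf : f ∈ wt κ W S g m) (hf' : f' ∈ wt κ W S g n) :
    f * f' ∈ wt κ W S g (m + n) := by
  rw [mem_wt] at hf hf' ⊢
  intro w hw v
  rw [fc_mul]
  refine ((hf w hw v).mul (hf' w hw v)).congr_right fun t => ?_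
  rw [mul_add, pow_add]

omit [Fintype σ] [DecidableEq σ] in
theorem wt_zero (κ : σ → Bool) (W : Submodule ℂ (σ → ℂ)) (S : ℕ) (g : σ → ℂ) :
    wt κ W S g 0 = Set.univ := by
  ext f
  simp only [Set.mem_univ, iff_true]
  rw [mem_wt]
  intro w hw v
  have := fc_isBigO_one κ S g w v f
  refine this.trans ?_
  refine IsBigO.of_bound 1 (Eventually.of_forall fun t => ?_)
  simp

/-- the weight ideals as ideals -/
def wtI (κ : σ → Bool) (W : Submodule ℂ (σ → ℂ)) (S : ℕ) (g : σ → ℂ) (n : ℕ) :
    Ideal (MvPolynomial σ ℂ) where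
  carrier := wt κ W S g n
  add_mem' := by
    intro a b ha hb
    rw [mem_wt] at ha hb ⊢
    intro w hw v
    rw [fc_add]
    exact (ha w hw v).add (hb w hw v)
  zero_mem' := by
    rw [mem_wt]
    intro w hw v
    have : fc κ S g w v (0 : MvPolynomial σ ℂ) = fun _ => 0 := by funext t; simp [fc]
    rw [this]
    exact isBigO_zero _ _
  smul_mem' := by
    intro c f hf
    have h := wt_mul κ W S g 0 n c f (by rw [wt_zero]; trivial) hf
    simpa using h

omit [Fintype σ] [DecidableEq σ] in
theorem mem_wtI (κ : σ → Bool) (W : Submodule ℂ (σ → ℂ)) (S : ℕ) (g : σ → ℂ) (n : ℕ)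
    (f : MvPolynomial σ ℂ) : f ∈ wtI κ W S g n ↔ f ∈ wt κ W S g n := Iff.rfl

/-! ### derivatives -/

theorem dv_hasDerivAt (κ : σ → Bool) (g v : σ → ℂ) (f : MvPolynomial σ ℂ) (t : ℂ) :
    HasDerivAt (fun t : ℂ => eval (pt κ (g + t • v)) f)
      (eval (pt κ (g + t • v)) (dv κ v f)) t := by
  induction f using MvPolynomial.induction_on with
  | C a =>
    have h : dv κ v (C a) = 0 := by
      rw [dv, ← MvPolynomial.algebraMap_eq, Derivation.map_algebraMap]
    simp only [h, eval_C, map_zero]
    exact hasDerivAt_const t a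
  | add p q hp hq =>
    simp only [map_add]
    exact hp.add hq
  | mul_X p i hp =>
    have hX : HasDerivAt (fun t : ℂ => pt κ (g + t • v) i)
        (eval (pt κ (g + t • v)) (dv κ v (X i))) t := by
      rw [dv, mkDerivation_X]
      have hlin : HasDerivAt (fun t : ℂ => (g + t • v) i) (v i) t := by
        simp only [Pi.add_apply, Pi.smul_apply, smul_eq_mul]
        simpa using (((hasDerivAt_id t).mul_const (v i)).const_add (g i))
      by_cases h : κ i
      · simp only [h, if_true, map_mul, eval_C, eval_X]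
        have h2 : (fun t : ℂ => pt κ (g + t • v) i) = fun t => Complex.exp ((g + t • v) i) := by
          funext t; simp [pt, h]
        rw [h2]
        have h3 : pt κ (g + t • v) i = Complex.exp ((g + t • v) i) := by simp [pt, h]
        rw [h3, mul_comm]
        exact hlin.cexp
      · simp only [h, if_false, eval_C, Bool.false_eq_true]
        have h2 : (fun t : ℂ => pt κ (g + t • v) i) = fun t => (g + t • v) i := by
          funext t; simp [pt, h]
        rw [h2]
        exact hlin
    have h := hp.mul hX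
    have e : eval (pt κ (g + t • v)) (dv κ v (p * X i)) =
        eval (pt κ (g + t • v)) (dv κ v p) * pt κ (g + t • v) i +
          eval (pt κ (g + t • v)) p * eval (pt κ (g + t • v)) (dv κ v (X i)) := by
      rw [Derivation.leibniz]
      simp only [smul_eq_mul, map_add, map_mul, eval_X]
      ring
    rw [e]
    simp only [map_mul, eval_X]
    exact h

theorem isBigO_line (κ : σ → Bool) (g w : σ → ℂ) (k : ℕ) : ∀ f : MvPolynomial σ ℂ,
    (∀ m < k, eval (pt κ g) ((dv κ w)^[m] f) = 0) →
    (fun t : ℂ => eval (pt κ (g + t • w)) f) =O[𝓝 0] (fun t : ℂ => t ^ k) := by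
  induction k with
  | zero =>
    intro f _
    have hc : Continuous (fun t : ℂ => eval (pt κ (g + t • w)) f) :=
      continuous_iff_continuousAt.2 fun t => (dv_hasDerivAt κ g w f t).continuousAt
    have h1 := (hc.continuousAt (x := 0)).norm.isBoundedUnder_le.isBigO_one ℂ
    refine h1.trans (IsBigO.of_bound 1 (Eventually.of_forall fun t => ?_))
    simp
  | succ k ih =>
    intro f hf
    refine isBigO_pow_succ (dv_hasDerivAt κ g w f) ?_ (ih (dv κ w f) ?_)
    · have := hf 0 (Nat.succ_pos k)
      simpa using this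
    · intro m hm
      have := hf (m + 1) (Nat.succ_lt_succ hm)
      rwa [Function.iterate_succ_apply] at this

omit [Fintype σ] [DecidableEq σ] in
theorem isBigO_diff (κ : σ → Bool) (S : ℕ) (g w v : σ → ℂ) (f : MvPolynomial σ ℂ) :
    (fun t : ℂ => fc κ S g w v f t - eval (pt κ (g + t • w)) f) =O[𝓝 0]
      (fun t : ℂ => t ^ (S + 1)) := by
  induction f using MvPolynomial.induction_on with
  | C a =>
    have : (fun t : ℂ => fc κ S g w v (C a) t - eval (pt κ (g + t • w)) (C a)) = fun _ => 0 := by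
      funext t; simp [fc]
    rw [this]; exact isBigO_zero _ _
  | add p q hp hq =>
    refine (hp.add hq).congr_left fun t => ?_
    simp only [fc, map_add]; ring
  | mul_X p i hp =>
    have hc : Continuous (fun t : ℂ => pt κ (g + t • w) i) := by
      refine continuous_pt_apply κ _ i ?_
      simp only [Pi.add_apply, Pi.smul_apply, smul_eq_mul]
      fun_prop
    have hcO : (fun t : ℂ => pt κ (g + t • w) i) =O[𝓝 0] (fun _ : ℂ => (1 : ℂ)) :=
      (hc.continuousAt (x := 0)).norm.isBoundedUnder_le.isBigO_one ℂ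
    have hx : (fun t : ℂ => pt κ (cv S g w v t) i - pt κ (g + t • w) i) =O[𝓝 0]
        (fun t : ℂ => t ^ (S + 1)) := by
      by_cases h : κ i
      · have e : (fun t : ℂ => pt κ (cv S g w v t) i - pt κ (g + t • w) i) =
            fun t => pt κ (g + t • w) i * (Complex.exp (t ^ (S + 1) * v i) - 1) := by
          funext t
          simp only [pt, h, if_true, cv, Pi.add_apply, Pi.smul_apply, smul_eq_mul]
          rw [mul_sub, mul_one, ← Complex.exp_add]
        rw [e]
        have h1 : (fun t : ℂ => Complex.exp (t ^ (S + 1) * v i) - 1) =O[𝓝 0]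
            (fun t : ℂ => t ^ (S + 1)) := by
          have h2 : (fun z : ℂ => Complex.exp z - 1) =O[𝓝 0] (fun z : ℂ => z) := by
            have := (Complex.hasDerivAt_exp 0).isBigO_sub
            simpa using this
          have h3 : Tendsto (fun t : ℂ => t ^ (S + 1) * v i) (𝓝 0) (𝓝 0) := by
            have : Continuous (fun t : ℂ => t ^ (S + 1) * v i) := by fun_prop
            have := this.tendsto 0
            simpa using this
          have h4 := h2.comp_tendsto h3
          refine h4.trans ?_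
          refine IsBigO.of_bound ‖v i‖ (Eventually.of_forall fun t => ?_)
          simp [mul_comm]
        have := hcO.mul h1
        refine this.trans ?_
        refine IsBigO.of_bound 1 (Eventually.of_forall fun t => ?_)
        simp
      · have e : (fun t : ℂ => pt κ (cv S g w v t) i - pt κ (g + t • w) i) =
            fun t => t ^ (S + 1) * v i := by
          funext t
          simp only [pt, h, if_false, cv, Pi.add_apply, Pi.smul_apply, smul_eq_mul,
            Bool.false_eq_true]
          ring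
        rw [e]
        refine IsBigO.of_bound ‖v i‖ (Eventually.of_forall fun t => ?_)
        simp [mul_comm]
    have e : (fun t : ℂ => fc κ S g w v (p * X i) t - eval (pt κ (g + t • w)) (p * X i)) =
        fun t => fc κ S g w v p t * (pt κ (cv S g w v t) i - pt κ (g + t • w) i) +
          (fc κ S g w v p t - eval (pt κ (g + t • w)) p) * pt κ (g + t • w) i := by
      funext t
      simp only [fc, map_mul, eval_X]
      ring
    rw [e]
    have h1 := (fc_isBigO_one κ S g w v p).mul hx
    have h2 := hp.mul hcO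
    refine IsBigO.add (h1.trans ?_) (h2.trans ?_)
    · refine IsBigO.of_bound 1 (Eventually.of_forall fun t => ?_)
      simp
    · refine IsBigO.of_bound 1 (Eventually.of_forall fun t => ?_)
      simp

theorem wt_one_of (κ : σ → Bool) (W : Submodule ℂ (σ → ℂ)) (S : ℕ) (g : σ → ℂ)
    (f : MvPolynomial σ ℂ) (hf : ∀ w ∈ W, ∀ m ≤ S, eval (pt κ g) ((dv κ w)^[m] f) = 0) :
    f ∈ wt κ W S g 1 := by
  rw [mem_wt]
  intro w hw v
  have h1 := isBigO_line κ g w (S + 1) f (fun m hm => hf w hw m (Nat.lt_succ_iff.1 hm))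
  have h2 := isBigO_diff κ S g w v f
  have h3 := h2.add h1
  rw [mul_one]
  refine h3.congr_left fun t => ?_
  ring

/-- a polynomial function on a curve, vanishing at `0`, is `O(t)` -/
theorem fc_isBigO_id (κ : σ → Bool) (S : ℕ) (g w v : σ → ℂ) (f : MvPolynomial σ ℂ)
    (hf : eval (pt κ g) f = 0) : fc κ S g w v f =O[𝓝 0] (fun t : ℂ => t) := by
  have h1 := isBigO_line κ g w 1 f (fun m hm => by
    obtain rfl : m = 0 := by omega
    simpa using hf)
  have h2 := isBigO_diff κ S g w v f
  have h3 : (fun t : ℂ => t ^ (S + 1)) =O[𝓝 0] (fun t : ℂ => t) := by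
    have := (isBigO_refl (fun t : ℂ => t) (𝓝 0)).mul
      (f₂ := fun t : ℂ => t ^ S) (g₂ := fun _ : ℂ => (1 : ℂ)) ?_
    · refine (this.congr_left fun t => ?_).congr_right fun t => ?_
      · rw [pow_succ']
      · simp
    · have hc : Continuous (fun t : ℂ => t ^ S) := by fun_prop
      have := (hc.continuousAt (x := 0)).norm.isBoundedUnder_le.isBigO_one ℂ
      exact this
  have h4 := (h2.trans h3).add (h1.congr_right fun t => pow_one t)
  refine h4.congr_left fun t => ?_
  ring

theorem pow_mem_wt (κ : σ → Bool) (W : Submodule ℂ (σ → ℂ)) (S : ℕ) (g : σ → ℂ)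
    (f : MvPolynomial σ ℂ) (n : ℕ) (hf : eval (pt κ g) f = 0) :
    f ^ ((S + 1) * n) ∈ wt κ W S g n := by
  rw [mem_wt]
  intro w hw v
  have e : fc κ S g w v (f ^ ((S + 1) * n)) = fun t => fc κ S g w v f t ^ ((S + 1) * n) := by
    funext t; simp [fc]
  rw [e]
  exact (fc_isBigO_id κ S g w v f hf).pow _

end

theorem wt_target : T_WT := by
  intro σ _ _ κ W S g
  refine ⟨fun n => ⟨wtI κ W S g n, rfl⟩, wt_zero κ W S g, fun m n f hf f' hf' =>
    wt_mul κ W S g m n f f' hf hf', fun f hf => wt_one_of κ W S g f hf,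
    fun f n hf => pow_mem_wt κ W S g f n hf⟩

end

end Pool.Agent.H46.HR
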